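import Pool.Agent.Lib.P4f18dfC.NetC

/-!
# The law for all characters modulo almost all primes: definitions
-/

set_option autoImplicit false

namespace Pool.Agent.P4f18dfY

open Finset Pool.Agent.P4f18df Pool.Agent.P4f18dfQ Pool.Agent.P4f18dfC
open scoped ComplexConjugate

/-- bound for complete sums of products of powers of a nonprincipal character at at most `m` distinct
shifts, one of the exponents being `±1` -/
def WH (m : ℕ) (C : ℝ) : Prop :=
  ∀ p : ℕ, p.Prime → ∀ χ : DirichletCharacter ℂ p, χ ≠ 1 →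
    ∀ S : Finset (ZMod p), S.card ≤ m → ∀ e : ZMod p → ℤ, (∃ s ∈ S, e s = 1 ∨ e s = -1) →
      ∀ F : ZMod p → ℂ, (∀ x, F x = ∏ s ∈ S, (χ ^ e s) (x + s)) →
        ‖∑ n ∈ range p, F (n : ZMod p)‖ ≤ C * Real.sqrt p

/-- the product over a tuple of shifts: `χ` at the places of `S`, its conjugate at the others -/
noncomputable def AY {p : ℕ} (χ : DirichletCharacter ℂ p) {k : ℕ} (S : Finset (Fin k))
    (t : Fin k → ℕ) (a : ℕ) : ℂ :=
  ∏ i, mixf (fun n => χ (n : ZMod p)) S i (a + t i)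

/-- tuples of shifts in `[1, h]` in which some value occurs exactly once -/
def T1 (k h : ℕ) : Finset (Fin k → ℕ) :=
  (Fintype.piFinset (fun _ : Fin k => Icc 1 h)).filter (fun t => ∃ i, ∀ j, t j = t i → j = i)

/-- the weight of a tuple -/
noncomputable def wt (w : ℕ → ℝ) {k : ℕ} (t : Fin k → ℕ) (a : ℕ) : ℝ :=
  if ∀ i, Squarefree (a + t i) then ∏ i, w (a + t i) else 0

/-- the main part of the mixed moment -/
noncomputable def GY {p : ℕ} (χ : DirichletCharacter ℂ p) (w : ℕ → ℝ) (k : ℕ) (S : Finset (Fin k))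
    (N h : ℕ) : ℂ :=
  ∑ t ∈ T1 k h, ∑ a ∈ Ioc N (2 * N), (wt w t a : ℂ) * AY χ S t a

end Pool.Agent.P4f18dfY
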