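import Mathlib

/-!
# Duality with complex coefficients

Module Y.DualC.  Complex version of `Lib/P4f18dfQ/Dual.lean` (`duality_of_near_orth`).  Put
`T i = ∑ n, c n * A i n`, `Z = ∑ i, ‖T i‖^2 = ∑ n, c n * ∑ i, conj (T i) * A i n ≤
(∑ c^2)^(1/2) * (∑ n, ‖∑ i, conj (T i) * A i n‖^2)^(1/2)` and
`∑ n, ‖∑ i, b i * A i n‖^2 = ∑ i j, b i * conj (b j) * ∑ n, A i n * conj (A j n) ≤
N₁ ∑ ‖b i‖^2 + E (∑ ‖b i‖)^2 ≤ (N₁ + E * s.card) ∑ ‖b i‖^2`.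
-/

set_option autoImplicit false

namespace Pool.Agent.P4f18dfY

open Finset
open scoped ComplexConjugate

namespace DualCAux

theorem duality {ι κ : Type*} (s : Finset ι) (t : Finset κ) (A : ι → κ → ℂ) (Δ : ℝ) (hΔ : 0 ≤ Δ)
    (h : ∀ b : ι → ℂ, ∑ n ∈ t, ‖∑ i ∈ s, b i * A i n‖ ^ 2 ≤ Δ * ∑ i ∈ s, ‖b i‖ ^ 2)
    (c : κ → ℝ) :
    ∑ i ∈ s, ‖∑ n ∈ t, (c n : ℂ) * A i n‖ ^ 2 ≤ Δ * ∑ n ∈ t, c n ^ 2 := by
  set T : ι → ℂ := fun i => ∑ n ∈ t, (c n : ℂ) * A i n with hT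
  set Z : ℝ := ∑ i ∈ s, ‖T i‖ ^ 2 with hZ
  have hZ0 : 0 ≤ Z := Finset.sum_nonneg fun i _ => sq_nonneg _
  have hC0 : 0 ≤ ∑ n ∈ t, c n ^ 2 := Finset.sum_nonneg fun i _ => sq_nonneg _
  have e : (Z : ℂ) = ∑ n ∈ t, (c n : ℂ) * (∑ i ∈ s, conj (T i) * A i n) := by
    have e1 : (Z : ℂ) = ∑ i ∈ s, conj (T i) * T i := by
      rw [hZ]
      push_cast
      refine Finset.sum_congr rfl fun i _ => ?_
      rw [← Complex.normSq_eq_conj_mul_self, Complex.normSq_eq_norm_sq]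
      push_cast
      rfl
    rw [e1]
    simp only [Finset.mul_sum]
    rw [Finset.sum_comm]
    refine Finset.sum_congr rfl fun i _ => ?_
    conv_lhs => rw [show T i = ∑ n ∈ t, (c n : ℂ) * A i n from rfl]
    rw [Finset.mul_sum]
    refine Finset.sum_congr rfl fun n _ => ?_
    ring
  have e2 : Z ≤ ∑ n ∈ t, |c n| * ‖∑ i ∈ s, conj (T i) * A i n‖ := by
    calc Z = ‖(Z : ℂ)‖ := by rw [Complex.norm_real, Real.norm_of_nonneg hZ0]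
      _ = ‖∑ n ∈ t, (c n : ℂ) * (∑ i ∈ s, conj (T i) * A i n)‖ := by rw [← e]
      _ ≤ ∑ n ∈ t, ‖(c n : ℂ) * (∑ i ∈ s, conj (T i) * A i n)‖ := norm_sum_le _ _
      _ = ∑ n ∈ t, |c n| * ‖∑ i ∈ s, conj (T i) * A i n‖ := by
          refine Finset.sum_congr rfl fun n _ => ?_
          rw [norm_mul, Complex.norm_real, Real.norm_eq_abs]
  have h1 : Z ^ 2 ≤ (∑ n ∈ t, c n ^ 2) * (Δ * Z) := by
    calc Z ^ 2 ≤ (∑ n ∈ t, |c n| * ‖∑ i ∈ s, conj (T i) * A i n‖) ^ 2 :=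
          pow_le_pow_left₀ hZ0 e2 2
      _ ≤ (∑ n ∈ t, |c n| ^ 2) * ∑ n ∈ t, ‖∑ i ∈ s, conj (T i) * A i n‖ ^ 2 :=
          Finset.sum_mul_sq_le_sq_mul_sq _ _ _
      _ = (∑ n ∈ t, c n ^ 2) * ∑ n ∈ t, ‖∑ i ∈ s, conj (T i) * A i n‖ ^ 2 := by
          simp only [sq_abs]
      _ ≤ (∑ n ∈ t, c n ^ 2) * (Δ * Z) := by
          refine mul_le_mul_of_nonneg_left ((h fun i => conj (T i)).trans (le_of_eq ?_)) hC0
          rw [hZ]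
          congr 1
          refine Finset.sum_congr rfl fun i _ => ?_
          rw [Complex.norm_conj]
  show Z ≤ Δ * ∑ n ∈ t, c n ^ 2
  rcases hZ0.eq_or_lt with h0 | h0
  · rw [← h0]
    positivity
  · by_contra hcon
    push Not at hcon
    have := mul_lt_mul_of_pos_right hcon h0
    nlinarith

end DualCAux

theorem dual_near {ι κ : Type*} [DecidableEq ι] (s : Finset ι) (t : Finset κ) (A : ι → κ → ℂ)
    (N₁ E : ℝ) (hN₁ : 0 ≤ N₁) (hE : 0 ≤ E) (h1 : ∀ i ∈ s, ∑ n ∈ t, ‖A i n‖ ^ 2 ≤ N₁)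
    (h2 : ∀ i ∈ s, ∀ j ∈ s, i ≠ j → ‖∑ n ∈ t, A i n * conj (A j n)‖ ≤ E) (c : κ → ℝ) :
    ∑ i ∈ s, ‖∑ n ∈ t, (c n : ℂ) * A i n‖ ^ 2 ≤ (N₁ + E * s.card) * ∑ n ∈ t, c n ^ 2 := by
  refine DualCAux.duality s t A (N₁ + E * s.card) (by positivity) (fun b => ?_) c
  have e : ((∑ n ∈ t, ‖∑ i ∈ s, b i * A i n‖ ^ 2 : ℝ) : ℂ) =
      ∑ i ∈ s, ∑ j ∈ s, b i * conj (b j) * ∑ n ∈ t, A i n * conj (A j n) := by
    push_cast
    simp only [Finset.mul_sum]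
    have h3 : ∀ n ∈ t, ((‖∑ i ∈ s, b i * A i n‖ : ℂ)) ^ 2 =
        ∑ i ∈ s, ∑ j ∈ s, b i * conj (b j) * (A i n * conj (A j n)) := by
      intro n _
      rw [← Complex.mul_conj', map_sum, Finset.sum_mul_sum]
      refine Finset.sum_congr rfl fun i _ => Finset.sum_congr rfl fun j _ => ?_
      rw [map_mul]
      ring
    rw [Finset.sum_congr rfl h3, Finset.sum_comm]
    refine Finset.sum_congr rfl fun i _ => ?_
    rw [Finset.sum_comm]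
  have h3 : ∀ i ∈ s, ∀ j ∈ s, ‖b i * conj (b j) * ∑ n ∈ t, A i n * conj (A j n)‖ ≤
      (if i = j then ‖b i‖ ^ 2 * N₁ else 0) + E * (‖b i‖ * ‖b j‖) := by
    intro i hi j hj
    rw [norm_mul, norm_mul, Complex.norm_conj]
    by_cases hij : i = j
    · subst hij
      rw [if_pos rfl]
      have h4 : ‖∑ n ∈ t, A i n * conj (A i n)‖ ≤ N₁ := by
        refine (norm_sum_le _ _).trans (le_trans (le_of_eq ?_) (h1 i hi))
        refine Finset.sum_congr rfl fun n _ => ?_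
        rw [norm_mul, Complex.norm_conj]
        ring
      have h5 : ‖b i‖ * ‖b i‖ * ‖∑ n ∈ t, A i n * conj (A i n)‖ ≤ ‖b i‖ * ‖b i‖ * N₁ :=
        mul_le_mul_of_nonneg_left h4 (mul_self_nonneg _)
      have h6 : 0 ≤ E * (‖b i‖ * ‖b i‖) := by positivity
      nlinarith
    · rw [if_neg hij, zero_add]
      calc ‖b i‖ * ‖b j‖ * ‖∑ n ∈ t, A i n * conj (A j n)‖ ≤ ‖b i‖ * ‖b j‖ * E := by
            gcongr
            exact h2 i hi j hj hij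
        _ = E * (‖b i‖ * ‖b j‖) := by ring
  have hS0 : 0 ≤ ∑ n ∈ t, ‖∑ i ∈ s, b i * A i n‖ ^ 2 := Finset.sum_nonneg fun _ _ => sq_nonneg _
  calc ∑ n ∈ t, ‖∑ i ∈ s, b i * A i n‖ ^ 2
      = ‖((∑ n ∈ t, ‖∑ i ∈ s, b i * A i n‖ ^ 2 : ℝ) : ℂ)‖ := by
        rw [Complex.norm_real, Real.norm_of_nonneg hS0]
    _ = ‖∑ i ∈ s, ∑ j ∈ s, b i * conj (b j) * ∑ n ∈ t, A i n * conj (A j n)‖ := by rw [e]
    _ ≤ ∑ i ∈ s, ‖∑ j ∈ s, b i * conj (b j) * ∑ n ∈ t, A i n * conj (A j n)‖ := norm_sum_le _ _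
    _ ≤ ∑ i ∈ s, ∑ j ∈ s, ‖b i * conj (b j) * ∑ n ∈ t, A i n * conj (A j n)‖ :=
        Finset.sum_le_sum fun i _ => norm_sum_le _ _
    _ ≤ ∑ i ∈ s, ∑ j ∈ s, ((if i = j then ‖b i‖ ^ 2 * N₁ else 0) + E * (‖b i‖ * ‖b j‖)) :=
        Finset.sum_le_sum fun i hi => Finset.sum_le_sum fun j hj => h3 i hi j hj
    _ = N₁ * ∑ i ∈ s, ‖b i‖ ^ 2 + E * (∑ i ∈ s, ‖b i‖) ^ 2 := by
        simp only [Finset.sum_add_distrib]
        congr 1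
        · rw [Finset.mul_sum]
          refine Finset.sum_congr rfl fun i hi => ?_
          rw [Finset.sum_ite_eq, if_pos hi]
          ring
        · rw [sq, Finset.sum_mul_sum, Finset.mul_sum]
          refine Finset.sum_congr rfl fun i _ => ?_
          rw [Finset.mul_sum]
    _ ≤ N₁ * ∑ i ∈ s, ‖b i‖ ^ 2 + E * (s.card * ∑ i ∈ s, ‖b i‖ ^ 2) := by
        gcongr
        exact sq_sum_le_card_mul_sum_sq
    _ = (N₁ + E * s.card) * ∑ i ∈ s, ‖b i‖ ^ 2 := by ring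

end Pool.Agent.P4f18dfY
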