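import Pool.Agent.Lib.P4f18dfY.Comp

/-!
# The tuples with a value attained exactly once

Module Y.TupY.  `RootAux.DE_eq` (`Lib/P4f18dfC/Root.lean`, for `g = xc χ`) writes `DE (xc χ) w k S N h` as a sum over the shift tuples
`s ∈ ntr k (Ioc 0 h)` (some value occurs an odd number of times), and `Ioc 0 h = Icc 1 h`.
`T1 k h ⊆ ntr k (Ioc 0 h)`; for the other tuples of `ntr` every value is attained at least twice and one at least three
times, so there are at most `(k-1)/2` distinct values and at most `k^k * h^((k-1)/2) * k ≤ C (√h)^(k-1)` such tuples (none for `k ≤ 2`; cf.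
`tup_count` in `Lib/P4f18dfF/Mom5.lean`), each contributing at most `1` to `DE`.
For the tuples of `T1`, `xc χ` and `χ` agree unless `p ∣ a + i` for some `i ∈ [1, h]`, which happens for at most
`h (N / p + 1) ≤ 2 h N / p` values of `a ∈ (N, 2N]`; there the difference is at most `2 h^k` in all (`|T1| ≤ h^k`).
-/

set_option autoImplicit false

namespace Pool.Agent.P4f18dfY

open Finset Pool.Agent.P4f18df Pool.Agent.P4f18dfQ Pool.Agent.P4f18dfC
open scoped ComplexConjugate

theorem card_T1_le (k h : ℕ) : ((T1 k h).card : ℝ) ≤ (h : ℝ) ^ k := by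
  have h1 : (T1 k h).card ≤ h ^ k := by
    unfold T1
    refine (Finset.card_filter_le _ _).trans ?_
    rw [Fintype.card_piFinset]
    simp
  exact_mod_cast h1

theorem abs_wt_le {w : ℕ → ℝ} (hw : ∀ n, |w n| ≤ 1) {k : ℕ} (t : Fin k → ℕ) (a : ℕ) :
    |wt w t a| ≤ 1 := by
  unfold wt
  split_ifs
  · rw [Finset.abs_prod]
    exact Finset.prod_le_one (fun i _ => abs_nonneg _) (fun i _ => hw _)
  · simp

namespace TupYAux

/-- number of distinct values of a tuple -/
def nvl {n : ℕ} (t : Fin n → ℕ) : ℕ := (univ.image t).card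

lemma nvl_le {n : ℕ} (t : Fin n → ℕ) : nvl t ≤ n := by
  unfold nvl
  exact Finset.card_image_le.trans (by simp)

lemma tup_cnt (n s : ℕ) (D : Finset ℕ) :
    ((Fintype.piFinset (fun _ : Fin n => D)).filter (fun t => nvl t = s)).card ≤
      n ^ n * D.card ^ s := by
  by_cases hs : s ≤ n
  · rw [Finset.card_eq_sum_card_fiberwise (f := fun t => univ.image t)
      (t := D.powersetCard s)]
    · have h1 : ∀ S ∈ D.powersetCard s, (((Fintype.piFinset (fun _ : Fin n => D)).filter
          (fun t => nvl t = s)).filter (fun t => univ.image t = S)).card ≤ n ^ n := by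
        intro S hS
        rw [Finset.mem_powersetCard] at hS
        have h2 : (((Fintype.piFinset (fun _ : Fin n => D)).filter
          (fun t => nvl t = s)).filter (fun t => univ.image t = S)) ⊆
            Fintype.piFinset (fun _ : Fin n => S) := by
          intro t ht
          rw [Finset.mem_filter] at ht
          rw [Fintype.mem_piFinset]
          intro j
          rw [← ht.2]
          exact Finset.mem_image_of_mem _ (Finset.mem_univ _)
        refine (Finset.card_le_card h2).trans ?_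
        rw [Fintype.card_piFinset]
        simp only [Finset.prod_const, Finset.card_univ, Fintype.card_fin, hS.2]
        exact Nat.pow_le_pow_left hs n
      refine (Finset.sum_le_sum h1).trans ?_
      rw [Finset.sum_const, smul_eq_mul, Finset.card_powersetCard, mul_comm]
      exact Nat.mul_le_mul_left _ (Nat.choose_le_pow _ _)
    · intro t ht
      rw [Finset.mem_coe, Finset.mem_filter, Fintype.mem_piFinset] at ht
      rw [Finset.mem_coe, Finset.mem_powersetCard]
      refine ⟨?_, ht.2⟩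
      intro x hx
      obtain ⟨j, -, rfl⟩ := Finset.mem_image.1 hx
      exact ht.1 j
  · have : ((Fintype.piFinset (fun _ : Fin n => D)).filter (fun t => nvl t = s)) = ∅ := by
      rw [Finset.filter_eq_empty_iff]
      intro t _ h
      exact hs (h ▸ nvl_le t)
    rw [this]; simp

lemma T1_sub (k h : ℕ) : T1 k h ⊆ ntr k (Ioc 0 h) := by
  intro t ht
  unfold T1 at ht
  rw [Finset.mem_filter, Fintype.mem_piFinset] at ht
  obtain ⟨h1, i, hi⟩ := ht
  unfold ntr
  rw [Finset.mem_filter, Fintype.mem_piFinset]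
  refine ⟨fun j => ?_, fun hev => ?_⟩
  · have := Finset.mem_Icc.1 (h1 j)
    rw [Finset.mem_Ioc]
    omega
  · have h2 := hev (t i) (by
      have := Finset.mem_Icc.1 (h1 i)
      rw [Finset.mem_Ioc]
      omega)
    have h3 : univ.filter (fun j => t j = t i) = {i} := by
      ext j
      rw [Finset.mem_filter, Finset.mem_singleton]
      constructor
      · rintro ⟨-, h4⟩
        exact hi j h4
      · rintro rfl
        exact ⟨Finset.mem_univ _, rfl⟩
    rw [h3, Finset.card_singleton] at h2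
    exact absurd h2 (by decide)

/-- number of distinct values of the remaining tuples -/
lemma nvl_rest {k h : ℕ} {t : Fin k → ℕ} (ht : t ∈ ntr k (Ioc 0 h) \ T1 k h) : 2 * nvl t + 1 ≤ k := by
  rw [Finset.mem_sdiff] at ht
  obtain ⟨h1, h2⟩ := ht
  unfold ntr at h1
  rw [Finset.mem_filter, Fintype.mem_piFinset] at h1
  obtain ⟨h3, h4⟩ := h1
  have h5 : ∀ v ∈ univ.image t, 2 ≤ (univ.filter (fun j => t j = v)).card := by
    intro v hv
    obtain ⟨i, -, rfl⟩ := Finset.mem_image.1 hv
    by_contra hlt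
    have hc : (univ.filter (fun j => t j = t i)).card = 1 := by
      have : 0 < (univ.filter (fun j => t j = t i)).card :=
        Finset.card_pos.2 ⟨i, Finset.mem_filter.2 ⟨Finset.mem_univ _, rfl⟩⟩
      omega
    apply h2
    unfold T1
    rw [Finset.mem_filter, Fintype.mem_piFinset]
    refine ⟨fun j => ?_, i, fun j hj => ?_⟩
    · have := Finset.mem_Ioc.1 (h3 j)
      rw [Finset.mem_Icc]
      omega
    · rw [Finset.card_eq_one] at hc
      obtain ⟨x, hx⟩ := hc
      have e1 : j ∈ univ.filter (fun j => t j = t i) := Finset.mem_filter.2 ⟨Finset.mem_univ _, hj⟩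
      have e2 : i ∈ univ.filter (fun j => t j = t i) := Finset.mem_filter.2 ⟨Finset.mem_univ _, rfl⟩
      rw [hx, Finset.mem_singleton] at e1 e2
      rw [e1, e2]
  have h6 : ∃ v ∈ univ.image t, 3 ≤ (univ.filter (fun j => t j = v)).card := by
    by_contra hno
    push Not at hno
    apply h4
    intro v _
    by_cases hv : v ∈ univ.image t
    · have e1 := h5 v hv
      have e2 := hno v hv
      have e3 : (univ.filter (fun j => t j = v)).card = 2 := by omega
      rw [e3]
      decide
    · have e1 : univ.filter (fun j => t j = v) = ∅ := by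
        rw [Finset.filter_eq_empty_iff]
        intro j _ hj
        exact hv (Finset.mem_image.2 ⟨j, Finset.mem_univ _, hj⟩)
      rw [e1, Finset.card_empty]
      exact ⟨0, rfl⟩
  obtain ⟨v, hv, h7⟩ := h6
  have h8 : ∑ v ∈ univ.image t, (univ.filter (fun j => t j = v)).card = k := by
    rw [← Finset.card_eq_sum_card_image]
    simp
  have h9 : 2 * ((univ.image t).erase v).card ≤
      ∑ v ∈ (univ.image t).erase v, (univ.filter (fun j => t j = v)).card := by
    calc 2 * ((univ.image t).erase v).card = ∑ _v ∈ (univ.image t).erase v, 2 := by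
          rw [Finset.sum_const, smul_eq_mul, mul_comm]
      _ ≤ _ := Finset.sum_le_sum fun v hv => h5 v (Finset.mem_of_mem_erase hv)
  rw [← Finset.add_sum_erase _ _ hv] at h8
  rw [Finset.card_erase_of_mem hv] at h9
  have h10 : 0 < (univ.image t).card := Finset.card_pos.2 ⟨v, hv⟩
  unfold nvl
  omega

lemma card_rest {k h : ℕ} (hk : 1 ≤ k) (hh : 1 ≤ h) :
    ((ntr k (Ioc 0 h) \ T1 k h).card : ℝ) ≤ (k : ℝ) ^ (k + 1) * (Real.sqrt h) ^ (k - 1) := by
  have hhr : (1 : ℝ) ≤ h := by exact_mod_cast hh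
  have hsq : 1 ≤ Real.sqrt h := by rwa [Real.one_le_sqrt]
  have h1 : (ntr k (Ioc 0 h) \ T1 k h).card =
      ∑ s ∈ range k, ((ntr k (Ioc 0 h) \ T1 k h).filter (fun t => nvl t = s)).card := by
    rw [← Finset.card_eq_sum_card_fiberwise]
    intro t ht
    rw [Finset.mem_coe] at ht
    rw [Finset.mem_coe, Finset.mem_range]
    have := nvl_rest ht
    omega
  rw [h1]
  push_cast
  have h2 : ∀ s ∈ range k, (((ntr k (Ioc 0 h) \ T1 k h).filter (fun t => nvl t = s)).card : ℝ) ≤
      (k : ℝ) ^ k * (Real.sqrt h) ^ (k - 1) := by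
    intro s _
    by_cases hs : 2 * s + 1 ≤ k
    · have e1 : ((ntr k (Ioc 0 h) \ T1 k h).filter (fun t => nvl t = s)).card ≤
          k ^ k * h ^ s := by
        have e2 := tup_cnt k s (Ioc 0 h)
        rw [Nat.card_Ioc, Nat.sub_zero] at e2
        refine (Finset.card_le_card ?_).trans e2
        apply Finset.filter_subset_filter
        refine Finset.sdiff_subset.trans ?_
        unfold ntr
        exact Finset.filter_subset _ _
      have e3 : (((ntr k (Ioc 0 h) \ T1 k h).filter (fun t => nvl t = s)).card : ℝ) ≤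
          (k : ℝ) ^ k * (h : ℝ) ^ s := by exact_mod_cast e1
      refine e3.trans (mul_le_mul_of_nonneg_left ?_ (by positivity))
      have e4 : (h : ℝ) ^ s = (Real.sqrt h) ^ (2 * s) := by
        rw [pow_mul, Real.sq_sqrt (by linarith)]
      rw [e4]
      exact pow_le_pow_right₀ hsq (by omega)
    · have e1 : (ntr k (Ioc 0 h) \ T1 k h).filter (fun t => nvl t = s) = ∅ := by
        rw [Finset.filter_eq_empty_iff]
        intro t ht he
        have := nvl_rest ht
        omega
      rw [e1]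
      simp only [Finset.card_empty, Nat.cast_zero]
      positivity
  refine (Finset.sum_le_sum h2).trans (le_of_eq ?_)
  rw [Finset.sum_const, Finset.card_range, nsmul_eq_mul]
  ring

lemma norm_mixf_one {p : ℕ} (hp : p.Prime) (χ : DirichletCharacter ℂ p) {k : ℕ}
    (S : Finset (Fin k)) (i : Fin k) (n : ℕ) : ‖mixf (xc χ) S i n‖ = 1 := by
  unfold mixf
  split_ifs
  · exact RootAux.norm_xc hp χ n
  · rw [RCLike.norm_conj]
    exact RootAux.norm_xc hp χ n

lemma norm_prod_le {p : ℕ} (hp : p.Prime) (χ : DirichletCharacter ℂ p) {k : ℕ}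
    (S : Finset (Fin k)) (t : Fin k → ℕ) (a : ℕ) : ‖∏ i, mixf (xc χ) S i (a + t i)‖ ≤ 1 := by
  rw [norm_prod]
  exact Finset.prod_le_one (fun i _ => norm_nonneg _) (fun i _ => (norm_mixf_one hp χ S i _).le)

/-- the scale sum of one tuple -/
lemma norm_avg_le {w : ℕ → ℝ} (hw : ∀ n, |w n| ≤ 1) {k : ℕ} (t : Fin k → ℕ) {N : ℕ} (hN : 0 < N)
    {f : ℕ → ℂ} (hf : ∀ a, ‖f a‖ ≤ 1) :
    ‖(∑ a ∈ Ioc N (2 * N), (wt w t a : ℂ) * f a) / N‖ ≤ 1 := by
  have hNr : (0 : ℝ) < N := by exact_mod_cast hN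
  rw [norm_div, Complex.norm_natCast, div_le_one hNr]
  refine (norm_sum_le _ _).trans ?_
  calc ∑ a ∈ Ioc N (2 * N), ‖(wt w t a : ℂ) * f a‖ ≤ ∑ _a ∈ Ioc N (2 * N), (1 : ℝ) := by
        refine Finset.sum_le_sum fun a _ => ?_
        rw [norm_mul, Complex.norm_real, Real.norm_eq_abs]
        exact mul_le_one₀ (abs_wt_le hw t a) (norm_nonneg _) (hf a)
    _ = N := by
        rw [Finset.sum_const, Nat.card_Ioc, nsmul_eq_mul, mul_one]
        congr 1
        omega

/-- one tuple: the difference between the two products -/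
lemma norm_diff_le {w : ℕ → ℝ} (hw : ∀ n, |w n| ≤ 1) {p : ℕ} (hp : p.Prime)
    (χ : DirichletCharacter ℂ p) {k N h : ℕ} (S : Finset (Fin k)) {t : Fin k → ℕ}
    (ht : ∀ i, t i ∈ Icc 1 h) (hN : p ≤ N) :
    ‖(∑ a ∈ Ioc N (2 * N), (wt w t a : ℂ) * ∏ i, mixf (xc χ) S i (a + t i)) / N -
      (∑ a ∈ Ioc N (2 * N), (wt w t a : ℂ) * AY χ S t a) / N‖ ≤ 4 * h / p := by
  classical
  have hpr : (0 : ℝ) < p := by exact_mod_cast hp.pos
  have hN0 : 0 < N := lt_of_lt_of_le hp.pos hN
  have hNr : (0 : ℝ) < N := by exact_mod_cast hN0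
  have hpN : (p : ℝ) ≤ N := by exact_mod_cast hN
  rw [← sub_div, ← Finset.sum_sub_distrib, norm_div, Complex.norm_natCast, div_le_iff₀ hNr]
  set R : Finset (ZMod p) := (Icc 1 h).image (fun i : ℕ => -((i : ℕ) : ZMod p)) with hR
  have hRc : (R.card : ℝ) ≤ h := by
    have : R.card ≤ h := Finset.card_image_le.trans (by simp)
    exact_mod_cast this
  refine (norm_sum_le _ _).trans ?_
  have h1 : ∀ a ∈ Ioc N (2 * N), ‖(wt w t a : ℂ) * ∏ i, mixf (xc χ) S i (a + t i) -
      (wt w t a : ℂ) * AY χ S t a‖ ≤ if (a : ZMod p) ∈ R then (2 : ℝ) else 0 := by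
    intro a _
    rw [← mul_sub, norm_mul, Complex.norm_real, Real.norm_eq_abs]
    by_cases hbad : ∃ i, p ∣ a + t i
    · obtain ⟨i, hi⟩ := hbad
      have hmem : (a : ZMod p) ∈ R := by
        rw [hR, Finset.mem_image]
        refine ⟨t i, ht i, ?_⟩
        have : ((a + t i : ℕ) : ZMod p) = 0 := (ZMod.natCast_eq_zero_iff _ _).2 hi
        push_cast at this
        exact (eq_neg_of_add_eq_zero_left this).symm
      rw [if_pos hmem]
      have e1 : ‖∏ i, mixf (xc χ) S i (a + t i) - AY χ S t a‖ ≤ 2 := by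
        refine (norm_sub_le _ _).trans ?_
        have := norm_prod_le hp χ S t a
        have := norm_AY_le χ S t a
        linarith
      calc _ ≤ 1 * 2 := mul_le_mul (abs_wt_le hw t a) e1 (norm_nonneg _) zero_le_one
        _ = 2 := by norm_num
    · push Not at hbad
      have e1 : ∏ i, mixf (xc χ) S i (a + t i) = AY χ S t a := by
        unfold AY
        refine Finset.prod_congr rfl fun i _ => ?_
        unfold mixf xc
        rw [if_neg (hbad i)]
      rw [e1, sub_self, norm_zero, mul_zero]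
      split_ifs <;> norm_num
  refine (Finset.sum_le_sum h1).trans ?_
  rw [← Finset.sum_filter, Finset.sum_const, nsmul_eq_mul]
  have h2 := RootAux.card_set hp.pos N R
  have h3 : (N : ℝ) / p + 1 ≤ 2 * N / p := by
    rw [div_add_one hpr.ne']
    exact div_le_div_of_nonneg_right (by linarith) hpr.le
  calc (((Ioc N (2 * N)).filter (fun b : ℕ => (b : ZMod p) ∈ R)).card : ℝ) * 2
      ≤ (R.card * ((N : ℝ) / p + 1)) * 2 := mul_le_mul_of_nonneg_right h2 (by norm_num)
    _ ≤ (h * (2 * N / p)) * 2 := by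
        refine mul_le_mul_of_nonneg_right ?_ (by norm_num)
        exact mul_le_mul hRc h3 (by positivity) (Nat.cast_nonneg _)
    _ = 4 * h / p * N := by ring

end TupYAux

theorem DE_sub_GY (k : ℕ) (hk : 1 ≤ k) : ∃ C : ℝ, 0 < C ∧ ∀ p : ℕ, p.Prime →
    ∀ χ : DirichletCharacter ℂ p, ∀ w : ℕ → ℝ, (∀ n, |w n| ≤ 1) → ∀ S : Finset (Fin k),
      ∀ N h : ℕ, 1 ≤ h → h ≤ p → p ≤ N →
        ‖DE (xc χ) w k S N h - GY χ w k S N h / N‖ ≤
          C * (Real.sqrt h) ^ (k - 1) + 4 * (h : ℝ) ^ (k + 1) / p := by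
  have hk0 : (0 : ℝ) < k := by exact_mod_cast hk
  refine ⟨(k : ℝ) ^ (k + 1), by positivity, ?_⟩
  intro p hp χ w hw S N h hh _ hpN
  have hpr : (0 : ℝ) < p := by exact_mod_cast hp.pos
  have hN0 : 0 < N := lt_of_lt_of_le hp.pos hpN
  have h1 : DE (xc χ) w k S N h = ∑ t ∈ ntr k (Ioc 0 h),
      (∑ a ∈ Ioc N (2 * N), (wt w t a : ℂ) * ∏ i, mixf (xc χ) S i (a + t i)) / N :=
    RootAux.DE_eq (xc χ) w k S N h
  have h2 : GY χ w k S N h / N = ∑ t ∈ T1 k h,
      (∑ a ∈ Ioc N (2 * N), (wt w t a : ℂ) * AY χ S t a) / N := by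
    unfold GY
    rw [Finset.sum_div]
  have h3 : DE (xc χ) w k S N h - GY χ w k S N h / N =
      (∑ t ∈ ntr k (Ioc 0 h) \ T1 k h,
        (∑ a ∈ Ioc N (2 * N), (wt w t a : ℂ) * ∏ i, mixf (xc χ) S i (a + t i)) / N) +
      ∑ t ∈ T1 k h, ((∑ a ∈ Ioc N (2 * N), (wt w t a : ℂ) *
        ∏ i, mixf (xc χ) S i (a + t i)) / N -
        (∑ a ∈ Ioc N (2 * N), (wt w t a : ℂ) * AY χ S t a) / N) := by
    rw [h1, h2, Finset.sum_sub_distrib, ← Finset.sum_sdiff (TupYAux.T1_sub k h)]
    ring
  rw [h3]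
  refine (norm_add_le _ _).trans (add_le_add ?_ ?_)
  · refine (norm_sum_le _ _).trans ?_
    calc _ ≤ ∑ _t ∈ ntr k (Ioc 0 h) \ T1 k h, (1 : ℝ) := by
          refine Finset.sum_le_sum fun t _ => ?_
          exact TupYAux.norm_avg_le hw t hN0 (fun a => TupYAux.norm_prod_le hp χ S t a)
      _ = ((ntr k (Ioc 0 h) \ T1 k h).card : ℝ) := by
          rw [Finset.sum_const, nsmul_eq_mul, mul_one]
      _ ≤ _ := TupYAux.card_rest hk hh
  · refine (norm_sum_le _ _).trans ?_
    calc _ ≤ ∑ _t ∈ T1 k h, 4 * (h : ℝ) / p := by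
          refine Finset.sum_le_sum fun t ht => ?_
          refine TupYAux.norm_diff_le hw hp χ S ?_ hpN
          unfold T1 at ht
          rw [Finset.mem_filter, Fintype.mem_piFinset] at ht
          exact ht.1
      _ = ((T1 k h).card : ℝ) * (4 * (h : ℝ) / p) := by
          rw [Finset.sum_const, nsmul_eq_mul]
      _ ≤ (h : ℝ) ^ k * (4 * (h : ℝ) / p) :=
          mul_le_mul_of_nonneg_right (card_T1_le k h) (by positivity)
      _ = 4 * (h : ℝ) ^ (k + 1) / p := by ring

end Pool.Agent.P4f18dfY
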