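import Pool.Agent.Lib.P4f18dfY.CrossK
import Pool.Agent.Lib.P4f18dfY.TupY
import Pool.Agent.Lib.P4f18dfY.DualC

/-!
# Few primes have a bad character, with an arbitrary bound for the correlations

As `Lib/P4f18dfY/BadY.lean` (helper50), with `cross` replaced by a hypothesis.
-/

set_option autoImplicit false

namespace Pool.Agent.P4f18dfY

open Finset Pool.Agent.P4f18df Pool.Agent.P4f18dfQ Pool.Agent.P4f18dfC
open scoped ComplexConjugate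

namespace BadKAux

/-- Cauchy–Schwarz for a sum of complex numbers. -/
lemma norm_sum_sq_le {ι : Type*} (s : Finset ι) (z : ι → ℂ) {K : ℝ} (hK : (s.card : ℝ) ≤ K) :
    ‖∑ i ∈ s, z i‖ ^ 2 ≤ K * ∑ i ∈ s, ‖z i‖ ^ 2 := by
  have h1 : ‖∑ i ∈ s, z i‖ ^ 2 ≤ (∑ i ∈ s, ‖z i‖) ^ 2 :=
    pow_le_pow_left₀ (norm_nonneg _) (norm_sum_le _ _) 2
  have h2 := sq_sum_le_card_mul_sum_sq (s := s) (f := fun i => ‖z i‖)
  exact h1.trans (h2.trans (mul_le_mul_of_nonneg_right hK (sum_nonneg fun _ _ => sq_nonneg _)))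

/-- The elementary inequality at the end. -/
lemma final {b H N L E : ℝ} (hH : 0 < H) (hN : 0 < N) (hL : 0 < L) (hb : 0 ≤ b)
    (hE : H * E ≤ N * (L ^ 2 / 8))
    (h : b * (L ^ 2 / 4 * H * N ^ 2) ≤ H * (H * ((N + E * b) * N))) : b ≤ 8 * H / L ^ 2 := by
  have h1 : b * (L ^ 2 / 4 * H * N ^ 2) = (b * (L ^ 2 / 4) * N) * (H * N) := by ring
  have h2 : H * (H * ((N + E * b) * N)) = (H * N + H * E * b) * (H * N) := by ring
  rw [h1, h2] at h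
  have h3 : b * (L ^ 2 / 4) * N ≤ H * N + H * E * b := le_of_mul_le_mul_right h (by positivity)
  have h4 : H * E * b ≤ N * (L ^ 2 / 8) * b := mul_le_mul_of_nonneg_right hE hb
  rw [le_div_iff₀ (by positivity)]
  have h5 : b * (L ^ 2 / 8) * N ≤ H * N := by linarith
  have h6 : b * (L ^ 2 / 8) ≤ H := le_of_mul_le_mul_right h5 hN
  linarith

end BadKAux

open BadKAux

theorem card_badK {k : ℕ} (hk : 1 ≤ k) {C₁ : ℝ}
    (hC₁ : ∀ p : ℕ, p.Prime →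
      ∀ χ : DirichletCharacter ℂ p, ∀ w : ℕ → ℝ, (∀ n, |w n| ≤ 1) → ∀ S : Finset (Fin k),
        ∀ N h : ℕ, 1 ≤ h → h ≤ p → p ≤ N →
          ‖DE (xc χ) w k S N h - GY χ w k S N h / N‖ ≤
            C₁ * (Real.sqrt h) ^ (k - 1) + 4 * (h : ℝ) ^ (k + 1) / p)
    {P N h : ℕ} (hP : 1 ≤ P) (hh1 : 1 ≤ h) (hhP : h ≤ P) (hPN : 2 * P ≤ N) {lam : ℝ}
    (hlam : 0 < lam)
    (h2 : C₁ * (Real.sqrt h) ^ (k - 1) + 4 * (h : ℝ) ^ (k + 1) / P ≤
      lam / 2 * (Real.sqrt h) ^ k)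
    {kap : ℝ} (hkap : 0 ≤ kap)
    (hcr : ∀ p ∈ PP P, ∀ p' ∈ PP P, p ≠ p' → ∀ χ : DirichletCharacter ℂ p,
      ∀ χ' : DirichletCharacter ℂ p', χ ≠ 1 → χ' ≠ 1 → ∀ S : Finset (Fin k), ∀ t ∈ T1 k h,
        ‖∑ a ∈ Ioc N (2 * N), AY χ S t a * conj (AY χ' S t a)‖ ≤ kap * N)
    (h3 : (h : ℝ) ^ k * kap ≤ lam ^ 2 / 8)
    {w : ℕ → ℝ} (hw : ∀ n, |w n| ≤ 1) (S : Finset (Fin k)) (B : Finset ℕ) (hB : B ⊆ PP P)
    (ψ : ∀ p : ℕ, DirichletCharacter ℂ p) (hψ : ∀ p ∈ B, ψ p ≠ 1)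
    (hbad : ∀ p ∈ B, lam * (Real.sqrt h) ^ k < ‖DE (xc (ψ p)) w k S N h‖) :
    (B.card : ℝ) ≤ 8 * (h : ℝ) ^ k / lam ^ 2 := by
  classical
  have hh0 : (0 : ℝ) < h := by exact_mod_cast hh1
  have hP0 : (0 : ℝ) < P := by
    have : 0 < P := by omega
    exact_mod_cast this
  have hN1 : 0 < N := by omega
  have hN0 : (0 : ℝ) < N := by exact_mod_cast hN1
  have hsk : (Real.sqrt h) ^ k * (Real.sqrt h) ^ k = (h : ℝ) ^ k := by
    rw [← mul_pow, Real.mul_self_sqrt hh0.le]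
  have hsq0 : 0 < (Real.sqrt h) ^ k := pow_pos (Real.sqrt_pos.2 hh0) k
  have hkey : ∀ p ∈ B, lam ^ 2 / 4 * (h : ℝ) ^ k * (N : ℝ) ^ 2 ≤ ‖GY (ψ p) w k S N h‖ ^ 2 := by
    intro p hp
    have hpP := hB hp
    rw [mem_PP] at hpP
    obtain ⟨⟨hP1, hP2⟩, hpp⟩ := hpP
    have hd := hC₁ p hpp (ψ p) w hw S N h hh1 (by omega) (by omega)
    have hpP' : (P : ℝ) ≤ p := by exact_mod_cast hP1.le
    have h4 : 4 * (h : ℝ) ^ (k + 1) / p ≤ 4 * (h : ℝ) ^ (k + 1) / P :=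
      div_le_div_of_nonneg_left (by positivity) hP0 hpP'
    have h5 : ‖DE (xc (ψ p)) w k S N h - GY (ψ p) w k S N h / N‖ ≤
        lam / 2 * (Real.sqrt h) ^ k := by linarith
    have h6 : ‖DE (xc (ψ p)) w k S N h‖ ≤
        ‖DE (xc (ψ p)) w k S N h - GY (ψ p) w k S N h / N‖ + ‖GY (ψ p) w k S N h / N‖ := by
      have := norm_add_le (DE (xc (ψ p)) w k S N h - GY (ψ p) w k S N h / N)
        (GY (ψ p) w k S N h / N)
      rwa [sub_add_cancel] at this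
    have h7 := hbad p hp
    have h8 : lam / 2 * (Real.sqrt h) ^ k ≤ ‖GY (ψ p) w k S N h / N‖ := by linarith
    have h9 : ‖GY (ψ p) w k S N h / N‖ = ‖GY (ψ p) w k S N h‖ / N := by
      rw [norm_div]
      simp
    rw [h9, le_div_iff₀ hN0] at h8
    have h10 : (lam / 2 * (Real.sqrt h) ^ k * N) ^ 2 ≤ ‖GY (ψ p) w k S N h‖ ^ 2 :=
      pow_le_pow_left₀ (by positivity) h8 2
    refine le_trans (le_of_eq ?_) h10
    rw [← hsk]
    ring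
  have hcard : ((T1 k h).card : ℝ) ≤ (h : ℝ) ^ k := card_T1_le k h
  have hIoc : ((Ioc N (2 * N)).card : ℝ) = N := by
    rw [Nat.card_Ioc]
    have : 2 * N - N = N := by omega
    rw [this]
  set E : ℝ := kap * N with hE
  have hE0 : 0 ≤ E := by positivity
  have hdual : ∀ t ∈ T1 k h, ∑ p ∈ B, ‖∑ a ∈ Ioc N (2 * N), (wt w t a : ℂ) * AY (ψ p) S t a‖ ^ 2 ≤
      (N + E * B.card) * N := by
    intro t ht
    have hd := dual_near B (Ioc N (2 * N)) (fun p a => AY (ψ p) S t a) N E hN0.le hE0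
      (fun p hp => ?_) (fun p hp p' hp' hne => ?_) (wt w t)
    · refine hd.trans (mul_le_mul_of_nonneg_left ?_ (by positivity))
      calc ∑ a ∈ Ioc N (2 * N), wt w t a ^ 2 ≤ ∑ _a ∈ Ioc N (2 * N), (1 : ℝ) := by
            refine sum_le_sum fun a _ => ?_
            rw [← sq_abs]
            exact pow_le_one₀ (abs_nonneg _) (abs_wt_le hw t a)
        _ = N := by rw [sum_const, nsmul_eq_mul, mul_one, hIoc]
    · calc ∑ a ∈ Ioc N (2 * N), ‖AY (ψ p) S t a‖ ^ 2 ≤ ∑ _a ∈ Ioc N (2 * N), (1 : ℝ) :=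
            sum_le_sum fun a _ => pow_le_one₀ (norm_nonneg _) (norm_AY_le (ψ p) S t a)
        _ = N := by rw [sum_const, nsmul_eq_mul, mul_one, hIoc]
    · exact hcr p (hB hp) p' (hB hp') hne _ _ (hψ p hp) (hψ p' hp') S t ht
  have hGY : ∀ p ∈ B, ‖GY (ψ p) w k S N h‖ ^ 2 ≤ (h : ℝ) ^ k *
      ∑ t ∈ T1 k h, ‖∑ a ∈ Ioc N (2 * N), (wt w t a : ℂ) * AY (ψ p) S t a‖ ^ 2 := by
    intro p _
    unfold GY
    exact norm_sum_sq_le (T1 k h) _ hcard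
  have hsum : (B.card : ℝ) * (lam ^ 2 / 4 * (h : ℝ) ^ k * (N : ℝ) ^ 2) ≤
      (h : ℝ) ^ k * ((h : ℝ) ^ k * ((N + E * B.card) * N)) := by
    calc (B.card : ℝ) * (lam ^ 2 / 4 * (h : ℝ) ^ k * (N : ℝ) ^ 2)
        = ∑ _p ∈ B, lam ^ 2 / 4 * (h : ℝ) ^ k * (N : ℝ) ^ 2 := by
          rw [sum_const, nsmul_eq_mul]
      _ ≤ ∑ p ∈ B, ‖GY (ψ p) w k S N h‖ ^ 2 := sum_le_sum hkey
      _ ≤ ∑ p ∈ B, (h : ℝ) ^ k *
          ∑ t ∈ T1 k h, ‖∑ a ∈ Ioc N (2 * N), (wt w t a : ℂ) * AY (ψ p) S t a‖ ^ 2 :=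
          sum_le_sum hGY
      _ = (h : ℝ) ^ k * ∑ t ∈ T1 k h, ∑ p ∈ B,
          ‖∑ a ∈ Ioc N (2 * N), (wt w t a : ℂ) * AY (ψ p) S t a‖ ^ 2 := by
          rw [← mul_sum, sum_comm]
      _ ≤ (h : ℝ) ^ k * ∑ _t ∈ T1 k h, ((N + E * B.card) * N) :=
          mul_le_mul_of_nonneg_left (sum_le_sum hdual) (by positivity)
      _ = (h : ℝ) ^ k * ((T1 k h).card * ((N + E * B.card) * N)) := by
          rw [sum_const, nsmul_eq_mul]
      _ ≤ (h : ℝ) ^ k * ((h : ℝ) ^ k * ((N + E * B.card) * N)) :=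
          mul_le_mul_of_nonneg_left (mul_le_mul_of_nonneg_right hcard (by positivity))
            (by positivity)
  refine final (pow_pos hh0 k) hN0 hlam (Nat.cast_nonneg _) ?_ hsum
  have h4 : (h : ℝ) ^ k * E = N * ((h : ℝ) ^ k * kap) := by
    rw [hE]
    ring
  rw [h4]
  exact mul_le_mul_of_nonneg_left h3 hN0.le

/-- the correlations on `(N, 2N]`, `N ≥ P^(1+η)` -/
theorem cross_pow (k : ℕ) {C : ℝ} (hC : 0 ≤ C) (hW : WH (2 * k) C) {η : ℝ} (hη : 0 < η)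
    (hη1 : η ≤ 1) {P N h : ℕ} (hP : 4 ≤ P) (hh : h ≤ P) (hN : (P : ℝ) ^ (1 + η) ≤ N) :
    ∀ p ∈ PP P, ∀ p' ∈ PP P, p ≠ p' → ∀ χ : DirichletCharacter ℂ p,
      ∀ χ' : DirichletCharacter ℂ p', χ ≠ 1 → χ' ≠ 1 → ∀ S : Finset (Fin k), ∀ t ∈ T1 k h,
        ‖∑ a ∈ Ioc N (2 * N), AY χ S t a * conj (AY χ' S t a)‖ ≤
          ((8 + Real.sqrt (k ^ 2 + C + 2)) * (P : ℝ) ^ (-(η / 4))) * N := by
  intro p hp p' hp' hne χ χ' hχ hχ' S t ht
  have hPr : (4 : ℝ) ≤ P := by exact_mod_cast hP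
  have hP0 : (0 : ℝ) < P := by linarith
  have hP1 : (1 : ℝ) ≤ P := by linarith
  have hN0 : (0 : ℝ) < N := lt_of_lt_of_le (Real.rpow_pos_of_pos hP0 _) hN
  have hN1 : 1 ≤ N := by exact_mod_cast hN0
  set Y : ℝ := (P : ℝ) ^ (η / 2) with hY
  have hY1 : 1 ≤ Y := Real.one_le_rpow hP1 (by linarith)
  have hY2 : Y ≤ Real.sqrt P := by
    rw [hY, Real.sqrt_eq_rpow]
    exact Real.rpow_le_rpow_of_exponent_le hP1 (by linarith)
  have hsP : 2 ≤ Real.sqrt P := by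
    apply Real.le_sqrt_of_sq_le
    linarith
  have hssP : Real.sqrt P * Real.sqrt P = P := Real.mul_self_sqrt hP0.le
  set J : ℕ := ⌈Y⌉₊ with hJ
  have hJ1 : Y ≤ J := Nat.le_ceil Y
  have hJ2 : (J : ℝ) < Y + 1 := Nat.ceil_lt_add_one (by linarith)
  have hJ3 : (J : ℝ) ≤ 2 * Y := by linarith
  have hJ0 : (0 : ℝ) < J := by linarith
  have hJge : 1 ≤ J := by exact_mod_cast hJ0
  have hJP : J ≤ P := by
    have : (J : ℝ) ≤ P := by nlinarith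
    exact_mod_cast this
  have hPN : (P : ℝ) * Y ^ 2 ≤ N := by
    refine le_trans (le_of_eq ?_) hN
    rw [hY, ← Real.rpow_natCast, ← Real.rpow_mul hP0.le, Real.rpow_add hP0, Real.rpow_one]
    congr 2
    push_cast
    ring
  have hmain := crossJ hC hW (by omega : 1 ≤ P) hh hJge hJP hN1 hp hp' hne χ' hχ S ht
  refine hmain.trans ?_
  -- the square root of `1 / Y`
  have hz : (P : ℝ) ^ (-(η / 4)) = Real.sqrt (1 / Y) := by
    rw [hY, Real.sqrt_eq_rpow, one_div, ← Real.rpow_neg hP0.le, ← Real.rpow_mul hP0.le]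
    congr 1
    ring
  rw [hz]
  have hY0 : 0 < Y := by linarith
  have hz1 : 1 / Y ≤ Real.sqrt (1 / Y) := by
    apply Real.le_sqrt_of_sq_le
    have h1 : 1 / Y ≤ 1 := by
      rw [div_le_one hY0]; exact hY1
    have h2 : 0 ≤ 1 / Y := by positivity
    nlinarith
  have e1 : 4 * (P : ℝ) * J ≤ 8 * Real.sqrt (1 / Y) * N := by
    have h1 : 4 * (P : ℝ) * J ≤ 8 * (P * Y) := by nlinarith
    have h2 : (P : ℝ) * Y ≤ 1 / Y * N := by
      rw [div_mul_eq_mul_div, one_mul, le_div_iff₀ hY0]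
      calc (P : ℝ) * Y * Y = P * Y ^ 2 := by ring
        _ ≤ N := hPN
    have h3 : 1 / Y * N ≤ Real.sqrt (1 / Y) * N := mul_le_mul_of_nonneg_right hz1 hN0.le
    linarith
  have e2 : Real.sqrt (k ^ 2 / J + C / Real.sqrt P + 2 * P / N) ≤
      Real.sqrt (k ^ 2 + C + 2) * Real.sqrt (1 / Y) := by
    rw [← Real.sqrt_mul (by positivity)]
    apply Real.sqrt_le_sqrt
    have h1 : (k : ℝ) ^ 2 / J ≤ k ^ 2 * (1 / Y) := by
      rw [mul_one_div]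
      exact div_le_div_of_nonneg_left (by positivity) hY0 hJ1
    have h2 : C / Real.sqrt P ≤ C * (1 / Y) := by
      rw [mul_one_div]
      exact div_le_div_of_nonneg_left hC hY0 hY2
    have h3 : 2 * (P : ℝ) / N ≤ 2 * (1 / Y) := by
      rw [mul_one_div, div_le_div_iff₀ hN0 hY0]
      have : (P : ℝ) * Y ≤ P * Y ^ 2 := by
        have : Y ≤ Y ^ 2 := by nlinarith
        nlinarith
      nlinarith
    linarith
  have e3 : (N : ℝ) * Real.sqrt (k ^ 2 / J + C / Real.sqrt P + 2 * P / N) ≤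
      N * (Real.sqrt (k ^ 2 + C + 2) * Real.sqrt (1 / Y)) :=
    mul_le_mul_of_nonneg_left e2 hN0.le
  calc _ ≤ 8 * Real.sqrt (1 / Y) * N + N * (Real.sqrt (k ^ 2 + C + 2) * Real.sqrt (1 / Y)) :=
        add_le_add e1 e3
    _ = _ := by ring

end Pool.Agent.P4f18dfY
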