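import Pool.Agent.Lib.P4f18dfY.Defs

/-!
# Complete sums of the product over a tuple

Module Y.Comp.  `mixf (χ ·) S i (a + t i)` is `χ (a + t i)` for `i ∈ S` and
`conj (χ (a + t i)) = χ⁻¹ (a + t i)` otherwise.  Group by the residue classes of the values of `t`; the
exponent of the class `s` is `#{i ∈ S : t i = s} - #{i ∉ S : t i = s}`.  The values of `t` are `≤ h < p`, so
they inject into `ZMod p`; the value attained exactly once has exponent `±1`.
-/

set_option autoImplicit false

namespace Pool.Agent.P4f18dfY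

open Finset Pool.Agent.P4f18df Pool.Agent.P4f18dfQ Pool.Agent.P4f18dfC
open scoped ComplexConjugate

theorem AY_periodic {p : ℕ} (χ : DirichletCharacter ℂ p) {k : ℕ} (S : Finset (Fin k))
    (t : Fin k → ℕ) (a : ℕ) : AY χ S t (a + p) = AY χ S t a := by
  unfold AY mixf
  refine Finset.prod_congr rfl fun i _ => ?_
  have h : ((a + p + t i : ℕ) : ZMod p) = ((a + t i : ℕ) : ZMod p) := by
    push_cast
    rw [ZMod.natCast_self, add_zero]
  simp only [h]

theorem norm_AY_le {p : ℕ} (χ : DirichletCharacter ℂ p) {k : ℕ} (S : Finset (Fin k))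
    (t : Fin k → ℕ) (a : ℕ) : ‖AY χ S t a‖ ≤ 1 := by
  unfold AY mixf
  rw [norm_prod]
  refine Finset.prod_le_one (fun _ _ => norm_nonneg _) fun i _ => ?_
  split_ifs
  · exact χ.norm_le_one _
  · rw [Complex.norm_conj]
    exact χ.norm_le_one _

namespace CompAux

/-- a product of characters over a nonempty set -/
theorem prod_apply {R ι : Type*} [CommMonoid R] {T : Finset ι} (hT : T.Nonempty)
    (ψ : ι → MulChar R ℂ) (y : R) : (∏ i ∈ T, ψ i) y = ∏ i ∈ T, ψ i y := by
  classical
  induction hT using Finset.Nonempty.cons_induction with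
  | singleton a => simp
  | cons a s ha hs ih => rw [Finset.prod_cons, Finset.prod_cons, MulChar.mul_apply, ih]

theorem zpow_sum' {M ι : Type*} [CommGroup M] (x : M) (T : Finset ι) (e : ι → ℤ) :
    x ^ (∑ i ∈ T, e i) = ∏ i ∈ T, x ^ e i := by
  classical
  induction T using Finset.induction_on with
  | empty => simp
  | insert a s ha ih => rw [Finset.sum_insert ha, Finset.prod_insert ha, zpow_add, ih]

/-- the exponent of a factor -/
def ep {k : ℕ} (S : Finset (Fin k)) (i : Fin k) : ℤ := if i ∈ S then 1 else -1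

/-- the exponent of a residue class -/
def ex {p k : ℕ} (S : Finset (Fin k)) (t : Fin k → ℕ) (s : ZMod p) : ℤ :=
  ∑ i with (t i : ZMod p) = s, ep S i

theorem mixf_eq {p : ℕ} [NeZero p] (χ : DirichletCharacter ℂ p) {k : ℕ} (S : Finset (Fin k))
    (i : Fin k) (n : ℕ) :
    mixf (fun n => χ (n : ZMod p)) S i n = (χ ^ ep S i) (n : ZMod p) := by
  unfold mixf ep
  by_cases h : i ∈ S
  · rw [if_pos h, if_pos h, zpow_one]
  · rw [if_neg h, if_neg h, zpow_neg_one]
    exact MulChar.star_apply' χ _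

theorem AY_eq {p : ℕ} [NeZero p] (χ : DirichletCharacter ℂ p) {k : ℕ} (S : Finset (Fin k))
    (t : Fin k → ℕ) (n : ℕ) :
    AY χ S t n = ∏ s ∈ univ.image (fun i => (t i : ZMod p)),
      (χ ^ ex S t s) ((n : ZMod p) + s) := by
  unfold AY
  rw [← Finset.prod_fiberwise_of_maps_to (s := univ)
    (t := univ.image (fun i => (t i : ZMod p))) (g := fun i => (t i : ZMod p))
    (fun i _ => mem_image_of_mem _ (mem_univ i))]
  refine Finset.prod_congr rfl fun s hs => ?_
  obtain ⟨j, -, hj⟩ := mem_image.1 hs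
  have hne : (univ.filter fun i => (t i : ZMod p) = s).Nonempty :=
    ⟨j, mem_filter.2 ⟨mem_univ _, hj⟩⟩
  have e1 : χ ^ ex S t s = ∏ i ∈ univ.filter (fun i => (t i : ZMod p) = s), χ ^ ep S i := by
    unfold ex
    exact zpow_sum' χ _ _
  rw [e1, prod_apply hne]
  refine Finset.prod_congr rfl fun i hi => ?_
  rw [mixf_eq, ← (mem_filter.1 hi).2]
  push_cast
  rfl

end CompAux

open CompAux

theorem comp_sum {k : ℕ} {C : ℝ} (hW : WH k C) {p : ℕ} (hp : p.Prime)
    {χ : DirichletCharacter ℂ p} (hχ : χ ≠ 1) {h : ℕ} (hh : h < p) (S : Finset (Fin k))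
    {t : Fin k → ℕ} (ht : t ∈ T1 k h) : ‖∑ a ∈ range p, AY χ S t a‖ ≤ C * Real.sqrt p := by
  have : NeZero p := ⟨hp.ne_zero⟩
  unfold T1 at ht
  rw [mem_filter, Fintype.mem_piFinset] at ht
  obtain ⟨h1, i₀, h2⟩ := ht
  have hlt : ∀ i, t i < p := fun i => lt_of_le_of_lt (mem_Icc.1 (h1 i)).2 hh
  have hinj : ∀ i, (t i : ZMod p) = (t i₀ : ZMod p) → i = i₀ := by
    intro i hi
    rw [ZMod.natCast_eq_natCast_iff', Nat.mod_eq_of_lt (hlt i), Nat.mod_eq_of_lt (hlt i₀)] at hi
    exact h2 i hi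
  have hcard : (univ.image (fun i => (t i : ZMod p))).card ≤ k := by
    refine card_image_le.trans (le_of_eq ?_)
    rw [card_univ, Fintype.card_fin]
  have hex : ∃ s ∈ univ.image (fun i => (t i : ZMod p)),
      ex S t s = 1 ∨ ex S t s = -1 := by
    refine ⟨(t i₀ : ZMod p), mem_image_of_mem _ (mem_univ i₀), ?_⟩
    have e : (univ.filter fun i => (t i : ZMod p) = (t i₀ : ZMod p)) = {i₀} := by
      ext i
      rw [mem_filter, mem_singleton]
      exact ⟨fun hi => hinj i hi.2, fun hi => ⟨mem_univ _, by rw [hi]⟩⟩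
    unfold ex
    rw [e, sum_singleton]
    unfold ep
    split_ifs
    · exact Or.inl rfl
    · exact Or.inr rfl
  have key := hW p hp χ hχ _ hcard (ex S t) hex
    (fun x => ∏ s ∈ univ.image (fun i => (t i : ZMod p)), (χ ^ ex S t s) (x + s)) (fun x => rfl)
  have e : ∑ a ∈ range p, AY χ S t a = ∑ n ∈ range p,
      ∏ s ∈ univ.image (fun i => (t i : ZMod p)), (χ ^ ex S t s) ((n : ZMod p) + s) :=
    Finset.sum_congr rfl fun n _ => AY_eq χ S t n
  rw [e]
  exact key

end Pool.Agent.P4f18dfY
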