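import Pool.Agent.Lib.P4f18dfY.Comp

/-!
# Complete sums of a product of shifted characters, general index type

`comp_gen`: as `comp_sum`, for shifts `r i` in `ZMod p` one of which is attained exactly once.
-/

set_option autoImplicit false

namespace Pool.Agent.P4f18dfY

open Finset Pool.Agent.P4f18df Pool.Agent.P4f18dfQ Pool.Agent.P4f18dfC
open scoped ComplexConjugate

namespace CompGAux

variable {ι : Type} [Fintype ι] [DecidableEq ι]

/-- the exponent of a factor -/
def epg (S : Finset ι) (i : ι) : ℤ := if i ∈ S then 1 else -1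

/-- the exponent of a residue class -/
def exg {p : ℕ} (S : Finset ι) (r : ι → ZMod p) (s : ZMod p) : ℤ :=
  ∑ i with r i = s, epg S i

theorem fac_eq {p : ℕ} [NeZero p] (χ : DirichletCharacter ℂ p) (S : Finset ι) (i : ι)
    (y : ZMod p) :
    (if i ∈ S then χ y else conj (χ y)) = (χ ^ epg S i) y := by
  unfold epg
  by_cases h : i ∈ S
  · rw [if_pos h, if_pos h, zpow_one]
  · rw [if_neg h, if_neg h, zpow_neg_one]
    exact MulChar.star_apply' χ _

theorem prod_eq {p : ℕ} [NeZero p] (χ : DirichletCharacter ℂ p) (S : Finset ι)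
    (r : ι → ZMod p) (y : ZMod p) :
    ∏ i, (if i ∈ S then χ (y + r i) else conj (χ (y + r i))) =
      ∏ s ∈ univ.image r, (χ ^ exg S r s) (y + s) := by
  rw [← Finset.prod_fiberwise_of_maps_to (s := univ)
    (t := univ.image r) (g := r)
    (fun i _ => mem_image_of_mem _ (mem_univ i))]
  refine Finset.prod_congr rfl fun s hs => ?_
  obtain ⟨j, -, hj⟩ := mem_image.1 hs
  have hne : (univ.filter fun i => r i = s).Nonempty :=
    ⟨j, mem_filter.2 ⟨mem_univ _, hj⟩⟩
  have e1 : χ ^ exg S r s = ∏ i ∈ univ.filter (fun i => r i = s), χ ^ epg S i := by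
    unfold exg
    exact CompAux.zpow_sum' χ _ _
  rw [e1, CompAux.prod_apply hne]
  refine Finset.prod_congr rfl fun i hi => ?_
  rw [fac_eq, (mem_filter.1 hi).2]

end CompGAux

open CompGAux in
theorem comp_gen {ι : Type} [Fintype ι] [DecidableEq ι] {m : ℕ} {C : ℝ} (hW : WH m C)
    (hm : Fintype.card ι ≤ m) {p : ℕ} (hp : p.Prime) {χ : DirichletCharacter ℂ p} (hχ : χ ≠ 1)
    (S : Finset ι) (r : ι → ZMod p) (hr : ∃ i, ∀ j, r j = r i → j = i) :
    ‖∑ n ∈ range p, ∏ i, (if i ∈ S then χ ((n : ZMod p) + r i) else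
      conj (χ ((n : ZMod p) + r i)))‖ ≤ C * Real.sqrt p := by
  have : NeZero p := ⟨hp.ne_zero⟩
  obtain ⟨i₀, hinj⟩ := hr
  have hcard : (univ.image r).card ≤ m := by
    refine card_image_le.trans ?_
    rw [card_univ]
    exact hm
  have hex : ∃ s ∈ univ.image r, exg S r s = 1 ∨ exg S r s = -1 := by
    refine ⟨r i₀, mem_image_of_mem _ (mem_univ i₀), ?_⟩
    have e : (univ.filter fun i => r i = r i₀) = {i₀} := by
      ext i
      rw [mem_filter, mem_singleton]
      exact ⟨fun hi => hinj i hi.2, fun hi => ⟨mem_univ _, by rw [hi]⟩⟩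
    unfold exg
    rw [e, sum_singleton]
    unfold epg
    split_ifs
    · exact Or.inl rfl
    · exact Or.inr rfl
  have key := hW p hp χ hχ _ hcard (exg S r) hex
    (fun x => ∏ s ∈ univ.image r, (χ ^ exg S r s) (x + s)) (fun x => rfl)
  have e : ∑ n ∈ range p, ∏ i, (if i ∈ S then χ ((n : ZMod p) + r i) else
      conj (χ ((n : ZMod p) + r i))) = ∑ n ∈ range p,
      ∏ s ∈ univ.image r, (χ ^ exg S r s) ((n : ZMod p) + s) :=
    Finset.sum_congr rfl fun n _ => prod_eq χ S r _
  rw [e]
  exact key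

end Pool.Agent.P4f18dfY
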