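import Pool.Agent.Lib.P4f18dfY.Comp

/-!
# Complete sums of a product over a family of shifts modulo a prime
-/

set_option autoImplicit false

namespace Pool.Agent.P4f18dfY

open Finset Pool.Agent.P4f18df Pool.Agent.P4f18dfQ Pool.Agent.P4f18dfC
open scoped ComplexConjugate

namespace CompHAux

/-- the exponent of a factor -/
def ep {ι : Type} (S : ι → Prop) [DecidablePred S] (i : ι) : ℤ := if S i then 1 else -1

/-- the exponent of a residue class -/
def ex {p : ℕ} {ι : Type} [Fintype ι] (S : ι → Prop) [DecidablePred S] (r : ι → ZMod p)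
    (s : ZMod p) : ℤ :=
  ∑ i with r i = s, ep S i

theorem fac_eq {p : ℕ} [NeZero p] (χ : DirichletCharacter ℂ p) {ι : Type} (S : ι → Prop)
    [DecidablePred S] (i : ι) (x : ZMod p) :
    (if S i then χ x else conj (χ x)) = (χ ^ ep S i) x := by
  unfold ep
  by_cases h : S i
  · rw [if_pos h, if_pos h, zpow_one]
  · rw [if_neg h, if_neg h, zpow_neg_one]
    exact MulChar.star_apply' χ _

theorem prod_eq {p : ℕ} [NeZero p] (χ : DirichletCharacter ℂ p) {ι : Type} [Fintype ι]
    (S : ι → Prop) [DecidablePred S] (r : ι → ZMod p) (x : ZMod p) :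
    (∏ i, (if S i then χ (x + r i) else conj (χ (x + r i)))) =
      ∏ s ∈ univ.image r, (χ ^ ex S r s) (x + s) := by
  classical
  rw [← Finset.prod_fiberwise_of_maps_to (s := univ) (t := univ.image r) (g := r)
    (fun i _ => mem_image_of_mem _ (mem_univ i))]
  refine Finset.prod_congr rfl fun s hs => ?_
  obtain ⟨j, -, hj⟩ := mem_image.1 hs
  have hne : (univ.filter fun i => r i = s).Nonempty := ⟨j, mem_filter.2 ⟨mem_univ _, hj⟩⟩
  have e1 : χ ^ ex S r s = ∏ i ∈ univ.filter (fun i => r i = s), χ ^ ep S i := by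
    unfold ex
    exact CompAux.zpow_sum' χ _ _
  rw [e1, CompAux.prod_apply hne]
  refine Finset.prod_congr rfl fun i hi => ?_
  rw [fac_eq, (mem_filter.1 hi).2]

end CompHAux

open CompHAux

theorem comp_genP {ι : Type} [Fintype ι] {m : ℕ} {C : ℝ} (hW : WH m C)
    (hm : Fintype.card ι ≤ m) {p : ℕ} (hp : p.Prime) {χ : DirichletCharacter ℂ p} (hχ : χ ≠ 1)
    (S : ι → Prop) [DecidablePred S] (r : ι → ZMod p) (hr : ∃ i, ∀ j, r j = r i → j = i)
    (F : ZMod p → ℂ)
    (hF : ∀ x, F x = ∏ i, (if S i then χ (x + r i) else conj (χ (x + r i)))) :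
    ‖∑ n ∈ range p, F (n : ZMod p)‖ ≤ C * Real.sqrt p := by
  classical
  have : NeZero p := ⟨hp.ne_zero⟩
  obtain ⟨i₀, hi₀⟩ := hr
  have hcard : (univ.image r).card ≤ m := card_image_le.trans (by rw [card_univ]; exact hm)
  have hex : ∃ s ∈ univ.image r, ex S r s = 1 ∨ ex S r s = -1 := by
    refine ⟨r i₀, mem_image_of_mem _ (mem_univ i₀), ?_⟩
    have e : (univ.filter fun i => r i = r i₀) = {i₀} := by
      ext i
      rw [mem_filter, mem_singleton]
      exact ⟨fun hi => hi₀ i hi.2, fun hi => ⟨mem_univ _, by rw [hi]⟩⟩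
    unfold ex
    rw [e, sum_singleton]
    unfold ep
    split_ifs
    · exact Or.inl rfl
    · exact Or.inr rfl
  exact hW p hp χ hχ _ hcard (ex S r) hex F (fun x => by rw [hF, prod_eq])

end Pool.Agent.P4f18dfY
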