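import Pool.Agent.Lib.P4f18dfC.Final

/-!
# The law and the moments from the condition on the discrete moments
-/

set_option autoImplicit false

namespace Pool.Agent.P4f18dfY

open Finset Filter MeasureTheory ProbabilityTheory
open Pool.Agent.P4f18df Pool.Agent.P4f18dfQ Pool.Agent.P4f18dfT Pool.Agent.P4f18dfC

/-- the law and the moments at one scale, for a function `f` which agrees off the multiples of `p` with a function `g`
whose discrete moments are known -/
theorem coreG (δ : ℝ) (L : ℕ) (hδ : 0 < δ) :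
    ∃ K : ℕ, 1 ≤ K ∧ ∃ c₁ : ℝ, 0 < c₁ ∧ c₁ ≤ 1 ∧ ∃ P₃ : ℕ, ∀ p : ℕ, p.Prime → P₃ ≤ p →
      ∀ f g : ℕ → ℝ, (∀ n, |f n| ≤ 2) → (∀ n, |g n| ≤ 2) → (∀ n, ¬ p ∣ n → f n = g n) →
        ∀ X H : ℝ, (p : ℝ) ≤ X → (K : ℝ) + 1 ≤ H → H ≤ (p : ℝ) ^ c₁ →
          (∀ N : ℕ, X / 4 ≤ N → (N : ℝ) ≤ X → GoodR K g N ⌊H⌋₊) →
            (∀ t, |Gd f X H t - cdf (gaussianReal 0 1) t| ≤ δ) ∧
              (∀ k ≤ L, |Md f k X H - gm k| ≤ δ) := by
  classical
  obtain ⟨K, hK1, hK⟩ := quantC (1 / 2) (δ / 2) (by norm_num) (by norm_num) (by positivity) L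
  set c : ℝ := 1 / (2 * (L + 2)) with hc
  have hc0 : 0 < c := by
    rw [hc]; positivity
  have hcL : c * (L + 2) ≤ 1 / 2 := by
    rw [hc]; field_simp; norm_num
  have hc2 : c ≤ 1 / 2 := by
    have hL0 : (0 : ℝ) ≤ L := Nat.cast_nonneg _
    nlinarith
  obtain ⟨P₃, hP₃⟩ := eventually_atTop.1
    ((ev_rpow_le (1 / 2) (18 * 8 ^ L / (δ / 2)) (by norm_num)).and (eventually_ge_atTop 4))
  refine ⟨K, hK1, c, hc0, by linarith, P₃, ?_⟩
  intro p hp hpP f g hf hg hagree X H hpX hHK hHP hgood0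
  obtain ⟨g7, g8⟩ := hP₃ p hpP
  have hp4r : (4:ℝ) ≤ p := by exact_mod_cast g8
  have hP0 : (0:ℝ) < p := by linarith
  have hP1 : (1:ℝ) ≤ p := by linarith
  have hX4 : 4 ≤ X := hp4r.trans hpX
  have hX0 : 0 < X := by linarith
  have hX1 : 1 ≤ X := by linarith
  have hK0 : (1:ℝ) ≤ K := by exact_mod_cast hK1
  have hHK' : (K : ℝ) ≤ H := by linarith
  have hH1 : 1 ≤ H := by linarith
  have hHX : H ≤ X ^ (1 - 1 / 2 : ℝ) := by
    calc H ≤ (p : ℝ) ^ c := hHP
      _ ≤ (p : ℝ) ^ (1 - 1 / 2 : ℝ) := Real.rpow_le_rpow_of_exponent_le hP1 (by linarith)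
      _ ≤ X ^ (1 - 1 / 2 : ℝ) := Real.rpow_le_rpow hP0.le hpX (by norm_num)
  have hHX' : H ≤ X := by
    refine hHX.trans ?_
    calc X ^ (1 - 1 / 2 : ℝ) ≤ X ^ (1:ℝ) := Real.rpow_le_rpow_of_exponent_le hX1 (by norm_num)
      _ = X := Real.rpow_one _
  -- the discrete lengths
  set N := ⌊X⌋₊ with hNdef
  set N' := (N + 1) / 2 with hN'def
  have n1 : (N : ℝ) ≤ X := Nat.floor_le hX0.le
  have n2 : X < N + 1 := Nat.lt_floor_add_one _
  have hN'2 : (N : ℝ) ≤ 2 * N' := by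
    have : N ≤ 2 * N' := by omega
    exact_mod_cast this
  have hN'X : X / 4 ≤ (N' : ℝ) := by linarith
  have hNX : X / 4 ≤ (N : ℝ) := by linarith
  have hN1 : 1 ≤ N := Nat.le_floor (by exact_mod_cast hX1)
  have hN'N : N' ≤ N := by omega
  have hN'r : (N' : ℝ) ≤ N := by exact_mod_cast hN'N
  obtain ⟨r1, r2⟩ := hK g hg X H hX0 hHK' hHX (hgood0 N hNX n1) (hgood0 N' hN'X (hN'r.trans n1))
  -- the size of the error
  have hPh : (p : ℝ) ^ (1 / 2 : ℝ) * (p : ℝ) ^ (1 / 2 : ℝ) = p := by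
    rw [← Real.rpow_add hP0]; norm_num
  have hph0 : 0 < (p : ℝ) ^ (1 / 2 : ℝ) := Real.rpow_pos_of_pos hP0 _
  have herr : ∀ k ≤ L, 18 * 8 ^ k * H ^ (k + 1) / p ≤ δ / 2 := by
    intro k hk
    have e1 : H ^ (k + 1) ≤ (p : ℝ) ^ (1 / 2 : ℝ) := by
      calc H ^ (k + 1) ≤ H ^ (L + 2) := pow_le_pow_right₀ hH1 (by omega)
        _ ≤ ((p : ℝ) ^ c) ^ (L + 2) := pow_le_pow_left₀ (by linarith) hHP _
        _ = (p : ℝ) ^ (c * (L + 2)) := by
            rw [← Real.rpow_natCast, ← Real.rpow_mul hP0.le]; push_cast; rfl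
        _ ≤ (p : ℝ) ^ (1 / 2 : ℝ) := Real.rpow_le_rpow_of_exponent_le hP1 hcL
    have e2 : (8:ℝ) ^ k ≤ 8 ^ L := pow_le_pow_right₀ (by norm_num) hk
    have e3 : 18 * 8 ^ L ≤ δ / 2 * (p : ℝ) ^ (1 / 2 : ℝ) := by
      rw [div_le_iff₀ (by positivity)] at g7
      linarith
    rw [div_le_iff₀ hP0]
    calc 18 * 8 ^ k * H ^ (k + 1) ≤ 18 * 8 ^ L * (p : ℝ) ^ (1 / 2 : ℝ) := by gcongr
      _ ≤ (δ / 2 * (p : ℝ) ^ (1 / 2 : ℝ)) * (p : ℝ) ^ (1 / 2 : ℝ) := by gcongr
      _ = δ / 2 * p := by rw [mul_assoc, hPh]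
  constructor
  · intro t
    have s1 := swap_law hp hf hg hagree hH1 hHX' t
    have s2 := herr 0 (Nat.zero_le _)
    have s3 : 9 * H / p ≤ δ / 2 := by
      refine le_trans ?_ s2
      have : 9 * H ≤ 18 * 8 ^ 0 * H ^ (0 + 1) := by
        simp only [pow_zero, zero_add, pow_one]
        linarith
      exact div_le_div_of_nonneg_right this hP0.le
    have s4 := r1 t
    calc |Gd f X H t - cdf (gaussianReal 0 1) t|
        = |(Gd f X H t - Gd g X H t) + (Gd g X H t - cdf (gaussianReal 0 1) t)| := by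
          congr 1; ring
      _ ≤ _ := abs_add_le _ _
      _ ≤ δ := by linarith
  · intro k hk
    have s1 := swap_mom hp hf hg hagree hH1 hHX' k
    have s2 := herr k hk
    have s4 := r2 k hk
    calc |Md f k X H - gm k| = |(Md f k X H - Md g k X H) + (Md g k X H - gm k)| := by
          congr 1; ring
      _ ≤ _ := abs_add_le _ _
      _ ≤ δ := by linarith

namespace CoreGAux

open scoped ComplexConjugate

/-- only tuples of squarefree numbers contribute -/
lemma sum_ntr_Ioc (f : ℕ → ℝ) (hf : ∀ n, ¬ Squarefree n → f n = 0) (k h a : ℕ) :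
    ∑ t ∈ ntr k (Ioc a (a + h)), ∏ i, f (t i) = ∑ t ∈ ntr k (Q h a), ∏ i, f (t i) := by
  symm
  apply Finset.sum_subset
  · intro t ht
    rw [ntr, Finset.mem_filter, Fintype.mem_piFinset] at ht ⊢
    refine ⟨fun i => ?_, fun hall => ht.2 fun v hv => hall v ?_⟩
    · have := ht.1 i
      rw [Q, Finset.mem_filter] at this
      exact this.1
    · rw [Q, Finset.mem_filter] at hv
      exact hv.1
  · intro t ht hnt
    rw [ntr, Finset.mem_filter, Fintype.mem_piFinset] at ht hnt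
    by_cases hsq : ∀ i, t i ∈ Q h a
    · exfalso
      apply hnt
      refine ⟨hsq, fun hall => ht.2 fun v _ => ?_⟩
      by_cases hvQ : v ∈ Q h a
      · exact hall v hvQ
      · have : (univ.filter (fun i => t i = v)) = ∅ := by
          rw [Finset.filter_eq_empty_iff]
          intro i _ hi
          exact hvQ (hi ▸ hsq i)
        rw [this]
        simp
    · push Not at hsq
      obtain ⟨i, hi⟩ := hsq
      apply Finset.prod_eq_zero (Finset.mem_univ i)
      apply hf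
      intro hs
      apply hi
      rw [Q, Finset.mem_filter]
      exact ⟨ht.1 i, hs⟩

end CoreGAux

open CoreGAux in
/-- for a real character -/
theorem good_real (K : ℕ) (hK : 1 ≤ K) : ∃ K' : ℕ, K ≤ K' ∧ ∀ p : ℕ, p.Prime →
    ∀ χ : DirichletCharacter ℂ p, (∀ n : ℕ, (xc χ n).im = 0) → ∀ N h : ℕ, 1 ≤ N → K' ≤ h → h ≤ N →
      (∀ k ∈ Icc 1 K, ‖DE (xc χ) mu k univ N h‖ ≤ (1 / K : ℝ) * (Real.sqrt h) ^ k) →
        GoodR K (fun n => mu n * (xc χ n).re) N h := by
  have hK0 : (0:ℝ) < K := by exact_mod_cast hK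
  refine ⟨81 * K ^ 2, by nlinarith, ?_⟩
  intro p hp χ him N h hN hKh hhN hD
  have hh1 : 1 ≤ h := by
    have : 1 ≤ 81 * K ^ 2 := by nlinarith
    omega
  have hh0 : (0:ℝ) < h := by exact_mod_cast hh1
  have hN0 : (0:ℝ) < N := by exact_mod_cast hN
  have hre : ∀ n, xc χ n = (((xc χ n).re : ℝ) : ℂ) := by
    intro n
    apply Complex.ext
    · simp
    · simp [him n]
  have hsq : ∀ n, (xc χ n).re ^ 2 = 1 := by
    intro n
    have h1 := norm_xc χ hp n
    rw [hre n, Complex.norm_real, Real.norm_eq_abs] at h1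
    rw [← sq_abs, h1, one_pow]
  have hf0 : ∀ n, ¬ Squarefree n → mu n * (xc χ n).re = 0 := by
    intro n hn
    rw [Dir.mu_eq_zero hn, zero_mul]
  constructor
  · intro k hk
    refine le_trans (le_of_eq ?_) (hD k hk)
    have e : ((Dg (fun n => mu n * (xc χ n).re) k N h : ℝ) : ℂ) = DE (xc χ) mu k univ N h := by
      unfold Dg DE
      rw [Complex.ofReal_div, Complex.ofReal_sum, Complex.ofReal_natCast]
      congr 1
      apply Finset.sum_congr rfl
      intro a _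
      rw [sum_ntr_Ioc _ hf0, Complex.ofReal_sum]
      apply Finset.sum_congr rfl
      intro t _
      rw [Complex.ofReal_prod]
      apply Finset.prod_congr rfl
      intro i _
      rw [mixf, if_pos (Finset.mem_univ i)]
      conv_rhs => rw [hre (t i)]
      push_cast
      rfl
    rw [← e, Complex.norm_real, Real.norm_eq_abs]
  · have h1 : ∀ a, s2 (fun n => mu n * (xc χ n).re) h a = ((Q h a).card : ℝ) := by
      intro a
      unfold s2
      rw [Q, Finset.card_filter, Nat.cast_sum]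
      apply Finset.sum_congr rfl
      intro n _
      by_cases hn : Squarefree n
      · rw [if_pos hn, mul_pow, hsq, Dir.mu_sq hn]
        simp
      · rw [if_neg hn]
        simp only [hf0 n hn]
        simp
    simp only [h1]
    have h2 := sum_card_Q hh1 hhN
    rw [div_le_iff₀ hN0]
    refine h2.trans ?_
    have h3 : 9 * (K : ℝ) ≤ Real.sqrt h := by
      apply Real.le_sqrt_of_sq_le
      have : (81 * K ^ 2 : ℝ) ≤ h := by exact_mod_cast hKh
      nlinarith
    have h5 : Real.sqrt h * Real.sqrt h = h := Real.mul_self_sqrt hh0.le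
    have h6 : 0 ≤ Real.sqrt h := Real.sqrt_nonneg _
    have h7 : 9 * Real.sqrt h ≤ 1 / K * h := by
      rw [one_div, ← div_eq_inv_mul, le_div_iff₀ hK0]
      nlinarith
    nlinarith

end Pool.Agent.P4f18dfY
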