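import Pool.Agent.Lib.P4f18dfQ.Per

/-!
# Periodic sums of complex functions

Module Y.PerC.  The complex versions of `abs_sum_Ioc_le_of_periodic` and `sum_range_mul_of_coprime`
(`Lib/P4f18dfQ/Per.lean`: same proofs, or take real and imaginary parts).
-/

set_option autoImplicit false

namespace Pool.Agent.P4f18dfY

open Finset

namespace PerCAux

theorem shift {φ : ℕ → ℂ} {q : ℕ} (hper : ∀ n, φ (n + q) = φ n) (a : ℕ) :
    ∑ n ∈ range q, φ (a + n) = ∑ n ∈ range q, φ n := by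
  induction a with
  | zero => simp
  | succ a ih =>
    rw [← ih]
    have h1 := Finset.sum_range_succ (fun n => φ (a + n)) q
    have h2 := Finset.sum_range_succ' (fun n => φ (a + n)) q
    rw [h1] at h2
    simp only [add_zero, hper a] at h2
    have h3 : ∑ n ∈ range q, φ (a + 1 + n) = ∑ n ∈ range q, φ (a + (n + 1)) := by
      refine Finset.sum_congr rfl fun n _ => ?_
      congr 1
      ring
    rw [h3]
    exact (add_right_cancel h2).symm

theorem sum_blocks {φ : ℕ → ℂ} {q : ℕ} (hper : ∀ n, φ (n + q) = φ n) (a m : ℕ) :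
    ∑ n ∈ range (q * m), φ (a + n) = m * ∑ n ∈ range q, φ n := by
  induction m with
  | zero => simp
  | succ m ih =>
    have h1 : ∑ x ∈ range q, φ (a + (q * m + x)) = ∑ n ∈ range q, φ n := by
      rw [← shift hper (a + q * m)]
      refine Finset.sum_congr rfl fun n _ => ?_
      rw [add_assoc]
    rw [show q * (m + 1) = q * m + q by ring, Finset.sum_range_add, ih, h1]
    push_cast
    ring

theorem map_mod {φ : ℕ → ℂ} {q : ℕ} (hper : ∀ n, φ (n + q) = φ n) (n : ℕ) :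
    φ (n % q) = φ n :=
  Function.Periodic.map_mod_nat (f := φ) (a := q) hper n

end PerCAux

theorem norm_sum_Ioc_le_of_periodic {φ : ℕ → ℂ} {q : ℕ} (hq : 0 < q) (hper : ∀ n, φ (n + q) = φ n)
    (hb : ∀ n, ‖φ n‖ ≤ 1) {A : ℝ} (hA : ‖∑ n ∈ range q, φ n‖ ≤ A) (N : ℕ) :
    ‖∑ n ∈ Ioc N (2 * N), φ n‖ ≤ (N : ℝ) / q * A + q := by
  have h0 : ∑ n ∈ Ioc N (2 * N), φ n = ∑ n ∈ range N, φ (N + 1 + n) := by
    rw [← Finset.Ico_succ_succ_eq_Ioc, Finset.sum_Ico_eq_sum_range]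
    have : Order.succ (2 * N) - Order.succ N = N := by
      simp only [Nat.succ_eq_succ, Nat.succ_eq_add_one]
      omega
    rw [this]
    rfl
  have hN : q * (N / q) + N % q = N := Nat.div_add_mod N q
  have h1 : ∑ n ∈ range N, φ (N + 1 + n) = ((N / q : ℕ) : ℂ) * ∑ n ∈ range q, φ n +
      ∑ n ∈ range (N % q), φ (N + 1 + (q * (N / q) + n)) := by
    rw [← PerCAux.sum_blocks hper (N + 1) (N / q), ← Finset.sum_range_add, hN]
  have h2 : ‖∑ n ∈ range (N % q), φ (N + 1 + (q * (N / q) + n))‖ ≤ q := by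
    calc ‖∑ n ∈ range (N % q), φ (N + 1 + (q * (N / q) + n))‖
        ≤ ∑ n ∈ range (N % q), ‖φ (N + 1 + (q * (N / q) + n))‖ := norm_sum_le _ _
      _ ≤ ∑ n ∈ range (N % q), 1 := Finset.sum_le_sum fun n _ => hb _
      _ = ((N % q : ℕ) : ℝ) := by simp
      _ ≤ q := by exact_mod_cast (Nat.mod_lt N hq).le
  have hA0 : 0 ≤ A := le_trans (norm_nonneg _) hA
  have hqr : (0 : ℝ) < q := by exact_mod_cast hq
  have h3 : ((N / q : ℕ) : ℝ) ≤ (N : ℝ) / q := Nat.cast_div_le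
  rw [h0, h1]
  calc ‖((N / q : ℕ) : ℂ) * ∑ n ∈ range q, φ n +
        ∑ n ∈ range (N % q), φ (N + 1 + (q * (N / q) + n))‖
      ≤ ‖((N / q : ℕ) : ℂ) * ∑ n ∈ range q, φ n‖ +
        ‖∑ n ∈ range (N % q), φ (N + 1 + (q * (N / q) + n))‖ := norm_add_le _ _
    _ ≤ (N : ℝ) / q * A + q := by
        refine add_le_add ?_ h2
        rw [norm_mul, Complex.norm_natCast]
        exact mul_le_mul h3 hA (norm_nonneg _) (by positivity)

theorem sum_range_mul_of_coprimeC {q₁ q₂ : ℕ} (h : Nat.Coprime q₁ q₂) (h₁ : 0 < q₁) (h₂ : 0 < q₂)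
    {φ ψ : ℕ → ℂ} (hφ : ∀ n, φ (n + q₁) = φ n) (hψ : ∀ n, ψ (n + q₂) = ψ n) :
    ∑ n ∈ range (q₁ * q₂), φ n * ψ n = (∑ n ∈ range q₁, φ n) * (∑ n ∈ range q₂, ψ n) := by
  rw [Finset.sum_mul_sum, ← Finset.sum_product']
  refine Finset.sum_nbij' (fun n => (n % q₁, n % q₂))
    (fun p => (Nat.chineseRemainder h p.1 p.2 : ℕ)) ?_ ?_ ?_ ?_ ?_
  · intro n _
    simp only [mem_product, mem_range]
    exact ⟨Nat.mod_lt _ h₁, Nat.mod_lt _ h₂⟩
  · intro p _
    simp only [mem_range]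
    exact Nat.chineseRemainder_lt_mul h _ _ h₁.ne' h₂.ne'
  · intro n hn
    simp only [mem_range] at hn
    have h3 : n ≡ (Nat.chineseRemainder h (n % q₁) (n % q₂) : ℕ) [MOD q₁ * q₂] :=
      Nat.chineseRemainder_modEq_unique h (Nat.mod_modEq _ _).symm (Nat.mod_modEq _ _).symm
    exact (Nat.ModEq.eq_of_lt_of_lt h3 hn
      (Nat.chineseRemainder_lt_mul h _ _ h₁.ne' h₂.ne')).symm
  · rintro ⟨a, b⟩ hp
    simp only [mem_product, mem_range] at hp
    have h3 := (Nat.chineseRemainder h a b).2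
    refine Prod.ext ?_ ?_
    · exact Eq.trans h3.1 (Nat.mod_eq_of_lt hp.1)
    · exact Eq.trans h3.2 (Nat.mod_eq_of_lt hp.2)
  · intro n _
    rw [PerCAux.map_mod hφ, PerCAux.map_mod hψ]

end Pool.Agent.P4f18dfY
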