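import Pool.Agent.Lib.P4f18dfY.Comp
import Pool.Agent.Lib.P4f18dfY.PerC

/-!
# Near orthogonality for two primes

Module Y.Cross.  As `Sieve.cross` in `Lib/P4f18dfQ/Sieve.lean`: `a ↦ AY χ S t a * conj (AY χ' S t a)` is
`p p'`-periodic, its sum over a period is the product of the two complete sums
(`sum_range_mul_of_coprimeC`, `comp_sum`), so at most `C^2 √p √p'`; `norm_sum_Ioc_le_of_periodic` gives
`N / (p p') * C^2 √(p p') + p p' ≤ C^2 N / P + 4 P^2`.
-/

set_option autoImplicit false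

namespace Pool.Agent.P4f18dfY

open Finset Pool.Agent.P4f18df Pool.Agent.P4f18dfQ Pool.Agent.P4f18dfC
open scoped ComplexConjugate

namespace CrossAux

lemma sqrt_div {P p : ℝ} (hP : 0 < P) (h : P < p) : Real.sqrt p / p ≤ 1 / Real.sqrt P := by
  have hp : 0 < p := hP.trans h
  rw [div_le_div_iff₀ hp (Real.sqrt_pos.2 hP), one_mul]
  calc Real.sqrt p * Real.sqrt P ≤ Real.sqrt p * Real.sqrt p :=
        mul_le_mul_of_nonneg_left (Real.sqrt_le_sqrt h.le) (Real.sqrt_nonneg _)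
    _ = p := Real.mul_self_sqrt hp.le

end CrossAux

theorem cross {k : ℕ} {C : ℝ} (hC : 0 ≤ C) (hW : WH k C) {P N h : ℕ} (hP : 1 ≤ P) (hh : h ≤ P)
    {p p' : ℕ} (hp : p ∈ PP P) (hp' : p' ∈ PP P) (hne : p ≠ p') {χ : DirichletCharacter ℂ p}
    {χ' : DirichletCharacter ℂ p'} (hχ : χ ≠ 1) (hχ' : χ' ≠ 1) (S : Finset (Fin k))
    {t : Fin k → ℕ} (ht : t ∈ T1 k h) :
    ‖∑ a ∈ Ioc N (2 * N), AY χ S t a * conj (AY χ' S t a)‖ ≤ C ^ 2 * N / P + 4 * (P : ℝ) ^ 2 := by
  obtain ⟨⟨h1, h2⟩, h3⟩ := mem_PP.1 hp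
  obtain ⟨⟨h1', h2'⟩, h3'⟩ := mem_PP.1 hp'
  have hcop : Nat.Coprime p p' := (Nat.coprime_primes h3 h3').2 hne
  have hper1 : Function.Periodic (fun n => AY χ S t n) p := fun n => AY_periodic χ S t n
  have hper2 : Function.Periodic (fun n => conj (AY χ' S t n)) p' := fun n => by
    show conj (AY χ' S t (n + p')) = conj (AY χ' S t n)
    rw [AY_periodic χ' S t n]
  have hper : ∀ n, AY χ S t (n + p * p') * conj (AY χ' S t (n + p * p')) =
      AY χ S t n * conj (AY χ' S t n) := by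
    intro n
    have e1 : AY χ S t (n + p * p') = AY χ S t n := by
      have := hper1.nat_mul p' n
      simp only [Nat.cast_id] at this
      rw [mul_comm p p']
      exact this
    have e2 : conj (AY χ' S t (n + p * p')) = conj (AY χ' S t n) := by
      have := hper2.nat_mul p n
      simp only [Nat.cast_id] at this
      exact this
    rw [e1, e2]
  have hb : ∀ n, ‖AY χ S t n * conj (AY χ' S t n)‖ ≤ 1 := by
    intro n
    rw [norm_mul, RCLike.norm_conj]
    calc _ ≤ (1:ℝ) * 1 :=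
          mul_le_mul (norm_AY_le _ _ _ _) (norm_AY_le _ _ _ _) (norm_nonneg _) zero_le_one
      _ = 1 := by norm_num
  have hA : ‖∑ n ∈ range (p * p'), AY χ S t n * conj (AY χ' S t n)‖ ≤
      (C * Real.sqrt p) * (C * Real.sqrt p') := by
    rw [sum_range_mul_of_coprimeC hcop h3.pos h3'.pos (φ := fun n => AY χ S t n)
      (ψ := fun n => conj (AY χ' S t n)) (fun n => AY_periodic χ S t n)
      (fun n => hper2 n), norm_mul, ← map_sum, RCLike.norm_conj]
    exact mul_le_mul (comp_sum hW h3 hχ (hh.trans_lt h1) S ht)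
      (comp_sum hW h3' hχ' (hh.trans_lt h1') S ht) (norm_nonneg _) (by positivity)
  have hmain := norm_sum_Ioc_le_of_periodic (φ := fun n => AY χ S t n * conj (AY χ' S t n))
    (Nat.mul_pos h3.pos h3'.pos) hper hb hA N
  refine hmain.trans ?_
  have hP0 : (0:ℝ) < P := by
    have : 0 < P := by omega
    exact_mod_cast this
  have c1 : (P:ℝ) < p := by exact_mod_cast h1
  have c1' : (P:ℝ) < p' := by exact_mod_cast h1'
  have c2 : (p:ℝ) ≤ 2 * P := by exact_mod_cast h2
  have c2' : (p':ℝ) ≤ 2 * P := by exact_mod_cast h2'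
  have hp0 : (0:ℝ) < p := hP0.trans c1
  have hp0' : (0:ℝ) < p' := hP0.trans c1'
  have d1 := CrossAux.sqrt_div hP0 c1
  have d2 := CrossAux.sqrt_div hP0 c1'
  have e1 : (N : ℝ) / ((p * p' : ℕ) : ℝ) * ((C * Real.sqrt p) * (C * Real.sqrt p')) =
      C ^ 2 * N * ((Real.sqrt p / p) * (Real.sqrt p' / p')) := by
    push_cast
    field_simp
  have e2 : (Real.sqrt p / p) * (Real.sqrt p' / p') ≤ 1 / P := by
    calc (Real.sqrt p / p) * (Real.sqrt p' / p') ≤ (1 / Real.sqrt P) * (1 / Real.sqrt P) :=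
          mul_le_mul d1 d2 (by positivity) (by positivity)
      _ = 1 / P := by
          rw [div_mul_div_comm, one_mul, Real.mul_self_sqrt hP0.le]
  have e3 : ((p * p' : ℕ) : ℝ) ≤ 4 * (P:ℝ) ^ 2 := by
    push_cast
    nlinarith
  rw [e1]
  have e4 : C ^ 2 * N * ((Real.sqrt p / p) * (Real.sqrt p' / p')) ≤ C ^ 2 * N * (1 / P) :=
    mul_le_mul_of_nonneg_left e2 (by positivity)
  have e5 : C ^ 2 * (N:ℝ) * (1 / P) = C ^ 2 * N / P := by ring
  linarith

end Pool.Agent.P4f18dfY
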