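import Pool.Agent.Lib.P4f18dfY.CompH
import Pool.Agent.Lib.P4f18dfY.PerC

/-!
# Near orthogonality for two primes, on intervals a little longer than the primes

The sum over `(N, 2N]` of `G(a) conj G'(a)`, `G` of period `p`, `G'` of period `p'`, is compared with its
translates by `p' j`, `j < J`; Cauchy–Schwarz leaves the correlations of `G` with its translates by
`p' (j - j')`, which are complete sums modulo `p`.
-/

set_option autoImplicit false

namespace Pool.Agent.P4f18dfY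

open Finset Pool.Agent.P4f18df Pool.Agent.P4f18dfQ Pool.Agent.P4f18dfC
open scoped ComplexConjugate

namespace CrossKAux

/-- a translate of the sum -/
lemma shift_sum {F : ℕ → ℂ} (hF : ∀ n, ‖F n‖ ≤ 1) (N s : ℕ) :
    ‖∑ a ∈ Ioc N (2 * N), F (a + s) - ∑ a ∈ Ioc N (2 * N), F a‖ ≤ 2 * s := by
  induction s with
  | zero => simp
  | succ s ih =>
    have h1 : ∑ a ∈ Ioc N (2 * N), F (a + (s + 1)) - ∑ a ∈ Ioc N (2 * N), F (a + s) =
        F (2 * N + (s + 1)) - F (N + (s + 1)) := by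
      have e1 : ∀ M : ℕ, N ≤ M → ∑ a ∈ Ioc N M, F (a + (s + 1)) - ∑ a ∈ Ioc N M, F (a + s) =
          F (M + (s + 1)) - F (N + (s + 1)) := by
        intro M hM
        induction M, hM using Nat.le_induction with
        | base => simp
        | succ M hM ih2 =>
          rw [Finset.sum_Ioc_succ_top hM, Finset.sum_Ioc_succ_top hM]
          have e2 : F (M + 1 + s) = F (M + (s + 1)) := by
            congr 1; omega
          rw [e2]
          linear_combination ih2
      exact e1 (2 * N) (by omega)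
    have h2 : ∑ a ∈ Ioc N (2 * N), F (a + (s + 1)) - ∑ a ∈ Ioc N (2 * N), F a =
        (F (2 * N + (s + 1)) - F (N + (s + 1))) +
          (∑ a ∈ Ioc N (2 * N), F (a + s) - ∑ a ∈ Ioc N (2 * N), F a) := by
      rw [← h1]; ring
    rw [h2]
    have h3 : ‖F (2 * N + (s + 1)) - F (N + (s + 1))‖ ≤ 2 := by
      refine (norm_sub_le _ _).trans ?_
      have := hF (2 * N + (s + 1))
      have := hF (N + (s + 1))
      linarith
    calc _ ≤ ‖F (2 * N + (s + 1)) - F (N + (s + 1))‖ +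
        ‖∑ a ∈ Ioc N (2 * N), F (a + s) - ∑ a ∈ Ioc N (2 * N), F a‖ := norm_add_le _ _
      _ ≤ 2 + 2 * s := add_le_add h3 ih
      _ = _ := by push_cast; ring

/-- averaging over translates by multiples of the second period -/
lemma avg {G G' : ℕ → ℂ} (hG : ∀ n, ‖G n‖ ≤ 1) (hG' : ∀ n, ‖G' n‖ ≤ 1) {p' : ℕ}
    (hper : ∀ n, G' (n + p') = G' n) (N J : ℕ) (hJ : 1 ≤ J) :
    ‖∑ a ∈ Ioc N (2 * N), G a * G' a‖ ≤ 2 * (p' * J : ℕ) +
      (∑ a ∈ Ioc N (2 * N), ‖∑ j ∈ range J, G (a + p' * j)‖) / J := by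
  have hJ0 : (0 : ℝ) < J := by exact_mod_cast hJ
  have hper2 : ∀ j n, G' (n + p' * j) = G' n := by
    intro j n
    induction j with
    | zero => simp
    | succ j ih => rw [show n + p' * (j + 1) = n + p' * j + p' by ring, hper, ih]
  set W := ∑ a ∈ Ioc N (2 * N), G a * G' a with hW
  have h1 : ∀ j ∈ range J, ‖∑ a ∈ Ioc N (2 * N), G (a + p' * j) * G' a - W‖ ≤
      2 * (p' * J : ℕ) := by
    intro j hj
    have h2 := shift_sum (F := fun a => G a * G' a) (fun n => by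
      rw [norm_mul]
      exact mul_le_one₀ (hG n) (norm_nonneg _) (hG' n)) N (p' * j)
    simp only [hper2] at h2
    refine h2.trans ?_
    have h3 : p' * j ≤ p' * J := Nat.mul_le_mul_left _ (Finset.mem_range.1 hj).le
    have h4 : ((p' * j : ℕ) : ℝ) ≤ ((p' * J : ℕ) : ℝ) := by exact_mod_cast h3
    linarith
  have h5 : (J : ℂ) * W = ∑ a ∈ Ioc N (2 * N), (∑ j ∈ range J, G (a + p' * j)) * G' a -
      ∑ j ∈ range J, (∑ a ∈ Ioc N (2 * N), G (a + p' * j) * G' a - W) := by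
    rw [Finset.sum_sub_distrib, Finset.sum_const, Finset.card_range, nsmul_eq_mul,
      Finset.sum_comm (s := range J)]
    have e : ∑ a ∈ Ioc N (2 * N), (∑ j ∈ range J, G (a + p' * j)) * G' a =
        ∑ a ∈ Ioc N (2 * N), ∑ j ∈ range J, G (a + p' * j) * G' a :=
      Finset.sum_congr rfl fun a _ => by rw [Finset.sum_mul]
    rw [e]
    ring
  have h6 : (J : ℝ) * ‖W‖ ≤ (∑ a ∈ Ioc N (2 * N), ‖∑ j ∈ range J, G (a + p' * j)‖) +
      J * (2 * (p' * J : ℕ)) := by
    have e1 : (J : ℝ) * ‖W‖ = ‖(J : ℂ) * W‖ := by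
      rw [norm_mul, Complex.norm_natCast]
    rw [e1, h5]
    refine (norm_sub_le _ _).trans (add_le_add ?_ ?_)
    · refine (norm_sum_le _ _).trans (Finset.sum_le_sum fun a _ => ?_)
      rw [norm_mul]
      exact mul_le_of_le_one_right (norm_nonneg _) (hG' a)
    · refine (norm_sum_le _ _).trans ((Finset.sum_le_sum h1).trans ?_)
      rw [Finset.sum_const, Finset.card_range, nsmul_eq_mul]
  have h7 : (∑ a ∈ Ioc N (2 * N), ‖∑ j ∈ range J, G (a + p' * j)‖) / J * J =
      ∑ a ∈ Ioc N (2 * N), ‖∑ j ∈ range J, G (a + p' * j)‖ := by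
    field_simp
  by_contra hcon
  push Not at hcon
  have h8 := mul_lt_mul_of_pos_left hcon hJ0
  nlinarith

/-- Cauchy–Schwarz -/
lemma cs {G : ℕ → ℂ} (p' N J : ℕ) {V : ℝ}
    (hV : ∀ j ∈ range J, ∑ j' ∈ range J,
      ‖∑ a ∈ Ioc N (2 * N), G (a + p' * j) * conj (G (a + p' * j'))‖ ≤ V) :
    ∑ a ∈ Ioc N (2 * N), ‖∑ j ∈ range J, G (a + p' * j)‖ ≤ Real.sqrt (N * (J * V)) := by
  apply Real.le_sqrt_of_sq_le
  have h1 := sq_sum_le_card_mul_sum_sq (s := Ioc N (2 * N))
    (f := fun a => ‖∑ j ∈ range J, G (a + p' * j)‖)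
  have hcard : (((Ioc N (2 * N)).card : ℕ) : ℝ) = N := by
    rw [Nat.card_Ioc]; congr 1; omega
  rw [hcard] at h1
  refine h1.trans (mul_le_mul_of_nonneg_left ?_ (Nat.cast_nonneg _))
  have h2 : ((∑ a ∈ Ioc N (2 * N), ‖∑ j ∈ range J, G (a + p' * j)‖ ^ 2 : ℝ) : ℂ) =
      ∑ j ∈ range J, ∑ j' ∈ range J,
        ∑ a ∈ Ioc N (2 * N), G (a + p' * j) * conj (G (a + p' * j')) := by
    rw [Complex.ofReal_sum]
    have e1 : ∀ a, ((‖∑ j ∈ range J, G (a + p' * j)‖ ^ 2 : ℝ) : ℂ) =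
        ∑ j ∈ range J, ∑ j' ∈ range J, G (a + p' * j) * conj (G (a + p' * j')) := by
      intro a
      rw [Complex.ofReal_pow, ← Complex.mul_conj', map_sum, Finset.sum_mul_sum]
    rw [Finset.sum_congr rfl fun a _ => e1 a, Finset.sum_comm]
    refine Finset.sum_congr rfl fun j _ => ?_
    rw [Finset.sum_comm]
  have h3 : ∑ a ∈ Ioc N (2 * N), ‖∑ j ∈ range J, G (a + p' * j)‖ ^ 2 =
      ‖((∑ a ∈ Ioc N (2 * N), ‖∑ j ∈ range J, G (a + p' * j)‖ ^ 2 : ℝ) : ℂ)‖ := by
    rw [Complex.norm_real, Real.norm_eq_abs, abs_of_nonneg]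
    exact Finset.sum_nonneg fun _ _ => by positivity
  rw [h3, h2]
  refine (norm_sum_le _ _).trans ?_
  have h4 : ∀ j ∈ range J, ‖∑ j' ∈ range J,
      ∑ a ∈ Ioc N (2 * N), G (a + p' * j) * conj (G (a + p' * j'))‖ ≤ V := fun j hj =>
    (norm_sum_le _ _).trans (hV j hj)
  refine (Finset.sum_le_sum h4).trans ?_
  rw [Finset.sum_const, Finset.card_range, nsmul_eq_mul]

/-- the correlation of the product over a tuple with a translate: no coincidence of the shifts -/
lemma corr_good {k : ℕ} {C : ℝ} (hC : 0 ≤ C) (hW : WH (2 * k) C) {p : ℕ} (hp : p.Prime)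
    {χ : DirichletCharacter ℂ p} (hχ : χ ≠ 1) {h : ℕ} (hh : h < p) (S : Finset (Fin k))
    {t : Fin k → ℕ} (ht : t ∈ T1 k h) (x y N : ℕ)
    (hxy : ∀ i i' : Fin k, ((t i + x : ℕ) : ZMod p) ≠ ((t i' + y : ℕ) : ZMod p)) :
    ‖∑ a ∈ Ioc N (2 * N), AY χ S t (a + x) * conj (AY χ S t (a + y))‖ ≤
      (N : ℝ) / p * (C * Real.sqrt p) + p := by
  classical
  unfold T1 at ht
  rw [mem_filter, Fintype.mem_piFinset] at ht
  obtain ⟨h1, i₀, h2⟩ := ht
  have hlt : ∀ i, t i < p := fun i => lt_of_le_of_lt (mem_Icc.1 (h1 i)).2 hh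
  have hinj : ∀ i, (t i : ZMod p) = (t i₀ : ZMod p) → i = i₀ := by
    intro i hi
    rw [ZMod.natCast_eq_natCast_iff', Nat.mod_eq_of_lt (hlt i), Nat.mod_eq_of_lt (hlt i₀)] at hi
    exact h2 i hi
  let r : Fin k ⊕ Fin k → ZMod p := Sum.elim (fun i => ((t i + x : ℕ) : ZMod p))
    (fun i => ((t i + y : ℕ) : ZMod p))
  let S' : Fin k ⊕ Fin k → Prop := Sum.elim (fun i => i ∈ S) (fun i => i ∉ S)
  have hr : ∃ i, ∀ j, r j = r i → j = i := by
    refine ⟨Sum.inl i₀, ?_⟩
    rintro (j | j) hj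
    · simp only [r, Sum.elim_inl] at hj
      congr 1
      apply hinj
      push_cast at hj
      exact add_right_cancel hj
    · simp only [r, Sum.elim_inl, Sum.elim_inr] at hj
      exact absurd hj.symm (hxy i₀ j)
  have hdec : DecidablePred S' := fun i => Classical.dec _
  have key := comp_genP (ι := Fin k ⊕ Fin k) hW (by simp [two_mul]) hp hχ S' r hr
    (fun z => ∏ i, (if S' i then χ (z + r i) else conj (χ (z + r i)))) (fun z => rfl)
  have hterm : ∀ a : ℕ, AY χ S t (a + x) * conj (AY χ S t (a + y)) =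
      ∏ i, (if S' i then χ ((a : ZMod p) + r i) else conj (χ ((a : ZMod p) + r i))) := by
    intro a
    rw [Fintype.prod_sum_type]
    unfold AY mixf
    congr 1
    · refine Finset.prod_congr rfl fun i _ => ?_
      have e : ((a + x + t i : ℕ) : ZMod p) = (a : ZMod p) + ((t i + x : ℕ) : ZMod p) := by
        push_cast; ring
      simp only [r, S', Sum.elim_inl, e]
    · rw [map_prod]
      refine Finset.prod_congr rfl fun i _ => ?_
      have e : ((a + y + t i : ℕ) : ZMod p) = (a : ZMod p) + ((t i + y : ℕ) : ZMod p) := by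
        push_cast; ring
      simp only [r, S', Sum.elim_inr, e]
      by_cases hi : i ∈ S
      · rw [if_pos hi, if_neg (not_not.2 hi)]
      · rw [if_neg hi, if_pos hi, Complex.conj_conj]
  have hA : ‖∑ n ∈ range p, AY χ S t (n + x) * conj (AY χ S t (n + y))‖ ≤ C * Real.sqrt p := by
    rw [Finset.sum_congr rfl fun n _ => hterm n]
    exact key
  have hmain := norm_sum_Ioc_le_of_periodic
    (φ := fun n => AY χ S t (n + x) * conj (AY χ S t (n + y))) hp.pos
    (fun n => by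
      show AY χ S t (n + p + x) * conj (AY χ S t (n + p + y)) = _
      rw [show n + p + x = n + x + p by ring, show n + p + y = n + y + p by ring,
        AY_periodic, AY_periodic])
    (fun n => by
      show ‖AY χ S t (n + x) * conj (AY χ S t (n + y))‖ ≤ 1
      rw [norm_mul, RCLike.norm_conj]
      exact mul_le_one₀ (norm_AY_le _ _ _ _) (norm_nonneg _) (norm_AY_le _ _ _ _)) hA N
  exact hmain

/-- trivial bound -/
lemma corr_triv {p k : ℕ} (χ : DirichletCharacter ℂ p) (S : Finset (Fin k)) (t : Fin k → ℕ)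
    (x y N : ℕ) :
    ‖∑ a ∈ Ioc N (2 * N), AY χ S t (a + x) * conj (AY χ S t (a + y))‖ ≤ N := by
  refine (norm_sum_le _ _).trans ?_
  have h1 : ∀ a ∈ Ioc N (2 * N), ‖AY χ S t (a + x) * conj (AY χ S t (a + y))‖ ≤ 1 := by
    intro a _
    rw [norm_mul, RCLike.norm_conj]
    exact mul_le_one₀ (norm_AY_le _ _ _ _) (norm_nonneg _) (norm_AY_le _ _ _ _)
  refine (Finset.sum_le_sum h1).trans ?_
  rw [Finset.sum_const, nsmul_eq_mul, mul_one, Nat.card_Ioc]
  have : 2 * N - N = N := by omega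
  rw [this]

/-- the sum over the second translate -/
lemma sum_corr {k : ℕ} {C : ℝ} (hC : 0 ≤ C) (hW : WH (2 * k) C) {p p' : ℕ} (hp : p.Prime)
    (hcop : Nat.Coprime p p')
    {χ : DirichletCharacter ℂ p} (hχ : χ ≠ 1) {h : ℕ} (hh : h < p) (S : Finset (Fin k))
    {t : Fin k → ℕ} (ht : t ∈ T1 k h) (N J j : ℕ) (hJ : J ≤ p) :
    ∑ j' ∈ range J, ‖∑ a ∈ Ioc N (2 * N), AY χ S t (a + p' * j) *
      conj (AY χ S t (a + p' * j'))‖ ≤ k ^ 2 * N + J * ((N : ℝ) / p * (C * Real.sqrt p) + p) := by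
  classical
  have : Fact p.Prime := ⟨hp⟩
  have hp'0 : (p' : ZMod p) ≠ 0 := by
    rw [Ne, ZMod.natCast_eq_zero_iff]
    intro hd
    have := Nat.Coprime.eq_one_of_dvd hcop hd
    exact hp.one_lt.ne' this
  set bad : Finset ℕ := (range J).filter (fun j' => ∃ i i' : Fin k,
    ((t i + p' * j : ℕ) : ZMod p) = ((t i' + p' * j' : ℕ) : ZMod p)) with hbad
  have hcard : bad.card ≤ k ^ 2 := by
    have h1 : bad ⊆ (univ : Finset (Fin k × Fin k)).biUnion (fun ii =>
        (range J).filter (fun j' : ℕ => ((t ii.1 + p' * j : ℕ) : ZMod p) =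
          ((t ii.2 + p' * j' : ℕ) : ZMod p))) := by
      intro j' hj'
      rw [hbad, mem_filter] at hj'
      obtain ⟨h2, i, i', h3⟩ := hj'
      rw [mem_biUnion]
      exact ⟨(i, i'), mem_univ _, mem_filter.2 ⟨h2, h3⟩⟩
    refine (Finset.card_le_card h1).trans (Finset.card_biUnion_le.trans ?_)
    have h4 : ∀ ii ∈ (univ : Finset (Fin k × Fin k)), ((range J).filter (fun j' : ℕ =>
        ((t ii.1 + p' * j : ℕ) : ZMod p) = ((t ii.2 + p' * j' : ℕ) : ZMod p))).card ≤ 1 := by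
      intro ii _
      rw [Finset.card_le_one]
      intro a ha b hb
      rw [mem_filter, mem_range] at ha hb
      have h5 : ((t ii.2 + p' * a : ℕ) : ZMod p) = ((t ii.2 + p' * b : ℕ) : ZMod p) :=
        ha.2.symm.trans hb.2
      push_cast at h5
      have h6 : (a : ZMod p) = (b : ZMod p) := mul_left_cancel₀ hp'0 (add_left_cancel h5)
      rw [ZMod.natCast_eq_natCast_iff', Nat.mod_eq_of_lt (ha.1.trans_le hJ),
        Nat.mod_eq_of_lt (hb.1.trans_le hJ)] at h6
      exact h6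
    refine (Finset.sum_le_sum h4).trans ?_
    simp [sq]
  have hg : (0 : ℝ) ≤ (N : ℝ) / p * (C * Real.sqrt p) + p := by positivity
  have hall : ∀ j' ∈ range J, ‖∑ a ∈ Ioc N (2 * N), AY χ S t (a + p' * j) *
      conj (AY χ S t (a + p' * j'))‖ ≤ (if j' ∈ bad then (N : ℝ) else 0) +
        ((N : ℝ) / p * (C * Real.sqrt p) + p) := by
    intro j' hj'
    split_ifs with hb
    · exact (corr_triv χ S t _ _ N).trans (by linarith)
    · rw [zero_add]
      apply corr_good hC hW hp hχ hh S ht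
      intro i i' he
      apply hb
      rw [hbad, mem_filter]
      exact ⟨hj', i, i', he⟩
  refine (Finset.sum_le_sum hall).trans ?_
  rw [Finset.sum_add_distrib, Finset.sum_const, Finset.card_range, nsmul_eq_mul,
    ← Finset.sum_filter, Finset.sum_const, nsmul_eq_mul]
  have h7 : (((range J).filter (fun j' => j' ∈ bad)).card : ℝ) ≤ (k : ℝ) ^ 2 := by
    have h8 : (range J).filter (fun j' => j' ∈ bad) ⊆ bad := by
      intro x hx
      exact (mem_filter.1 hx).2
    exact_mod_cast (Finset.card_le_card h8).trans hcard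
  have hN0 : (0 : ℝ) ≤ N := Nat.cast_nonneg _
  nlinarith

end CrossKAux

open CrossKAux

theorem crossJ {k : ℕ} {C : ℝ} (hC : 0 ≤ C) (hW : WH (2 * k) C) {P N h J : ℕ} (hP : 1 ≤ P)
    (hh : h ≤ P) (hJ : 1 ≤ J) (hJP : J ≤ P) (hN : 1 ≤ N)
    {p p' : ℕ} (hp : p ∈ PP P) (hp' : p' ∈ PP P) (hne : p ≠ p') {χ : DirichletCharacter ℂ p}
    (χ' : DirichletCharacter ℂ p') (hχ : χ ≠ 1) (S : Finset (Fin k))
    {t : Fin k → ℕ} (ht : t ∈ T1 k h) :
    ‖∑ a ∈ Ioc N (2 * N), AY χ S t a * conj (AY χ' S t a)‖ ≤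
      4 * P * J + N * Real.sqrt (k ^ 2 / J + C / Real.sqrt P + 2 * P / N) := by
  obtain ⟨⟨h1, h2⟩, h3⟩ := mem_PP.1 hp
  obtain ⟨⟨h1', h2'⟩, h3'⟩ := mem_PP.1 hp'
  have hcop : Nat.Coprime p p' := (Nat.coprime_primes h3 h3').2 hne
  have hJ0 : (0 : ℝ) < J := by exact_mod_cast hJ
  have hN0 : (0 : ℝ) < N := by exact_mod_cast hN
  have hP0 : (0 : ℝ) < P := by exact_mod_cast hP
  have hPp : (P : ℝ) ≤ p := by exact_mod_cast h1.le
  have hp0 : (0 : ℝ) < p := by linarith
  have hp2 : (p : ℝ) ≤ 2 * P := by exact_mod_cast h2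
  have hp2' : (p' : ℝ) ≤ 2 * P := by exact_mod_cast h2'
  have a1 := avg (G := fun a => AY χ S t a) (G' := fun a => conj (AY χ' S t a))
    (fun n => norm_AY_le _ _ _ _) (fun n => by
      show ‖conj (AY χ' S t n)‖ ≤ 1
      rw [RCLike.norm_conj]; exact norm_AY_le _ _ _ _) (p' := p') (fun n => by
      show conj (AY χ' S t (n + p')) = conj (AY χ' S t n)
      rw [AY_periodic]) N J hJ
  refine a1.trans (add_le_add ?_ ?_)
  · push_cast
    nlinarith
  · have a2 := cs (G := fun a => AY χ S t a) p' N J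
      (fun j _ => sum_corr hC hW h3 hcop hχ (hh.trans_lt h1) S ht N J j (hJP.trans h1.le))
    rw [div_le_iff₀ hJ0]
    refine a2.trans ?_
    have e1 : (N : ℝ) * Real.sqrt (k ^ 2 / J + C / Real.sqrt P + 2 * P / N) * J =
        Real.sqrt ((N * J) ^ 2 * (k ^ 2 / J + C / Real.sqrt P + 2 * P / N)) := by
      rw [Real.sqrt_mul (by positivity), Real.sqrt_sq (by positivity)]
      ring
    rw [e1]
    apply Real.sqrt_le_sqrt
    have hsP : 0 < Real.sqrt P := Real.sqrt_pos.2 hP0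
    have hsp : 0 < Real.sqrt p := Real.sqrt_pos.2 hp0
    have e2 : (N : ℝ) / p * (C * Real.sqrt p) ≤ N * (C / Real.sqrt P) := by
      have e3 : (N : ℝ) / p * (C * Real.sqrt p) = N * (C / Real.sqrt p) := by
        have h5 : Real.sqrt p * Real.sqrt p = p := Real.mul_self_sqrt hp0.le
        rw [div_mul_eq_mul_div, mul_div_assoc]
        congr 1
        rw [div_eq_div_iff hp0.ne' hsp.ne', mul_assoc, h5]
      rw [e3]
      apply mul_le_mul_of_nonneg_left _ hN0.le
      exact div_le_div_of_nonneg_left hC hsP (Real.sqrt_le_sqrt hPp)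
    have e4 : (N * J : ℝ) ^ 2 * (k ^ 2 / J + C / Real.sqrt P + 2 * P / N) =
        N * (J * (k ^ 2 * N + J * (N * (C / Real.sqrt P) + 2 * P))) := by
      generalize C / Real.sqrt P = y
      have f1 : (k : ℝ) ^ 2 / J * J = k ^ 2 := div_mul_cancel₀ _ hJ0.ne'
      have f2 : 2 * (P : ℝ) / N * N = 2 * P := div_mul_cancel₀ _ hN0.ne'
      generalize (k : ℝ) ^ 2 / J = z at *
      generalize 2 * (P : ℝ) / N = v at *
      linear_combination (N : ℝ) ^ 2 * J * f1 + (N : ℝ) * J ^ 2 * f2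
    rw [e4]
    apply mul_le_mul_of_nonneg_left _ hN0.le
    apply mul_le_mul_of_nonneg_left _ hJ0.le
    apply add_le_add le_rfl
    apply mul_le_mul_of_nonneg_left _ hJ0.le
    linarith

end Pool.Agent.P4f18dfY
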