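import Pool.Agent.Lib.P4f18dfY.NetY
import Pool.Agent.Lib.P4f18dfY.BadK

/-!
# The exceptional primes: all scales from `P^(1+η)` to `exp (P^β)`
-/

set_option autoImplicit false

namespace Pool.Agent.P4f18dfY

open Finset Pool.Agent.P4f18df Pool.Agent.P4f18dfQ Pool.Agent.P4f18dfC
open scoped ComplexConjugate

namespace NetKAux

open NetYAux Pool.Agent.P4f18dfQ.BadL Pool.Agent.P4f18dfC.NetCAux

lemma good_of_not_memK {P p : ℕ} (hp : p ∈ PP P) {K : ℕ} (hK : 1 ≤ K) {T T' X H₀ : ℝ} (hT : 1 ≤ T)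
    (hX : 0 < X) {s E : ℕ} {w : ℕ → ℝ} (hw : ∀ n, |w n| ≤ 1) {k L : ℕ} (hkL : k ≤ L)
    {S : Finset (Fin k)} (hs : 8 * K * T ^ L ≤ 2 ^ s) (hE : 8 * Real.exp T' < 2 ^ E)
    (hpU : p ∉ Un P K T X H₀ s E w k S) {χ : DirichletCharacter ℂ p} (hχ : χ ≠ 1) {h : ℕ}
    (hh1 : 1 ≤ h) (hhH : H₀ ≤ (h : ℝ))
    (hhT : (h : ℝ) ≤ T) {N : ℕ} (hN1 : X ≤ (N : ℝ)) (hN2 : (N : ℝ) ≤ Real.exp T') :
    ‖DE (xc χ) w k S N h‖ ≤ 1 / K * (Real.sqrt h) ^ k := by
  classical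
  have hK0 : (0 : ℝ) < K := by exact_mod_cast hK
  have hN0 : (0 : ℝ) < N := hX.trans_le hN1
  have hN0' : 1 ≤ N := by exact_mod_cast hN0
  have hh1' : (1 : ℝ) ≤ h := by exact_mod_cast hh1
  have hN3 : N < 2 ^ (s + E) := by
    have h1 : (N : ℝ) < 2 ^ E := by
      have := Real.exp_pos T'
      linarith
    have h2 : (2 : ℝ) ^ E ≤ 2 ^ (s + E) := pow_le_pow_right₀ (by norm_num) (by omega)
    exact_mod_cast h1.trans_le h2
  obtain ⟨n₁, _, n, hn, h1, h2, h3⟩ := exists_net hN3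
  have h4 : (n - N) * 2 ^ s ≤ N :=
    (Nat.mul_le_mul_right _ (Nat.sub_le_sub_left h1 n)).trans h3
  have h5 : ((n : ℝ) - N) * 2 ^ s ≤ N := by
    have : (((n - N : ℕ) : ℝ)) * 2 ^ s ≤ N := by exact_mod_cast h4
    rwa [Nat.cast_sub h2] at this
  have hn2 : n ≤ 2 * N := by
    have : (n - N) * 1 ≤ (n - N) * 2 ^ s := Nat.mul_le_mul_left _ Nat.one_le_two_pow
    omega
  have hTL : (1 : ℝ) ≤ T ^ L := one_le_pow₀ hT
  have h6 := DE_comp (xc χ) (xc_norm χ) w hw k S (h := h) hN0' h2 hn2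
  have h7 : 4 * (h : ℝ) ^ k * ((n : ℝ) - N) / N ≤ 1 / (2 * K) := by
    have hhk : (h : ℝ) ^ k ≤ T ^ L :=
      (pow_le_pow_left₀ (Nat.cast_nonneg _) hhT k).trans (pow_le_pow_right₀ hT hkL)
    have hnN : (0 : ℝ) ≤ (n : ℝ) - N := by
      have : (N : ℝ) ≤ n := by exact_mod_cast h2
      linarith
    rw [div_le_div_iff₀ hN0 (by positivity), one_mul]
    calc 4 * (h : ℝ) ^ k * ((n : ℝ) - N) * (2 * K) = ((n : ℝ) - N) * (8 * K * (h : ℝ) ^ k) := by
          ring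
      _ ≤ ((n : ℝ) - N) * (8 * K * T ^ L) :=
          mul_le_mul_of_nonneg_left (mul_le_mul_of_nonneg_left hhk (by positivity)) hnN
      _ ≤ ((n : ℝ) - N) * 2 ^ s := mul_le_mul_of_nonneg_left hs hnN
      _ ≤ N := h5
  have hsq : (1 : ℝ) ≤ (Real.sqrt h) ^ k := one_le_pow₀ (Real.one_le_sqrt.2 hh1')
  have h8 : ‖DE (xc χ) w k S n h‖ ≤ 1 / (2 * K) * (Real.sqrt h) ^ k := by
    by_contra hlt
    push Not at hlt
    apply hpU
    unfold Un
    simp only [mem_biUnion]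
    refine ⟨h, mem_filter.2 ⟨mem_Icc.2 ⟨hh1, (Nat.le_floor_iff (by linarith)).2 hhT⟩, hhH⟩, n,
      mem_filter.2 ⟨hn, hN1.trans (by exact_mod_cast h2)⟩, mem_filter.2 ⟨hp, χ, hχ, hlt⟩⟩
  have h9 : ‖DE (xc χ) w k S N h‖ ≤ ‖DE (xc χ) w k S n h‖ + ‖DE (xc χ) w k S n h -
        DE (xc χ) w k S N h‖ := by
    have := norm_sub_le (DE (xc χ) w k S n h) (DE (xc χ) w k S n h - DE (xc χ) w k S N h)
    rwa [sub_sub_cancel] at this
  have h11 : 1 / (2 * (K : ℝ)) ≤ 1 / (2 * K) * (Real.sqrt h) ^ k :=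
    le_mul_of_one_le_right (by positivity) hsq
  calc ‖DE (xc χ) w k S N h‖ ≤ 1 / (2 * K) * (Real.sqrt h) ^ k + 1 / (2 * K) :=
        h9.trans (add_le_add h8 (h6.trans h7))
    _ ≤ 1 / (2 * K) * (Real.sqrt h) ^ k + 1 / (2 * K) * (Real.sqrt h) ^ k := by linarith
    _ = 1 / K * (Real.sqrt h) ^ k := by
        field_simp
        ring

end NetKAux

open NetYAux NetKAux Pool.Agent.P4f18dfQ.BadL Pool.Agent.P4f18dfC.NetCAux in
theorem bad_netK (hWH : ∀ m : ℕ, ∃ C : ℝ, 0 ≤ C ∧ WH m C) (K : ℕ) (hK : 1 ≤ K) (β η : ℝ)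
    (hβ : 0 ≤ β) (hη : 0 < η) :
    ∃ c₀ H₀ : ℝ, 0 < c₀ ∧ ∀ c : ℝ, 0 < c → c ≤ c₀ → ∃ P₀ : ℕ, ∀ P : ℕ, P₀ ≤ P →
      ∃ B : Finset ℕ, (B.card : ℝ) ≤ (P : ℝ) ^ (β + η) ∧ ∀ p ∈ PP P, p ∉ B →
        ∀ χ : DirichletCharacter ℂ p, χ ≠ 1 → ∀ h : ℕ, H₀ ≤ h → (h : ℝ) ≤ (P : ℝ) ^ c →
          ∀ N : ℕ, (P : ℝ) ^ (1 + η) ≤ N → (N : ℝ) ≤ Real.exp ((P : ℝ) ^ β) →
            (∀ k ∈ Icc 1 K, ∀ S : Finset (Fin k),
              ‖DE (xc χ) mu k S N h‖ ≤ (1 / K : ℝ) * (Real.sqrt h) ^ k) ∧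
            ‖DE (xc χ) (fun _ => 1) 2 {0} N h‖ ≤ (1 / K : ℝ) * h := by
  classical
  have hK0 : (1 : ℝ) ≤ K := by exact_mod_cast hK
  set L : ℕ := K + 2 with hL
  have hL0 : (0 : ℝ) ≤ L := Nat.cast_nonneg L
  choose C0 hC0 hC0W using hWH
  have hC1e : ∀ k : ℕ, ∃ C : ℝ, 0 < C ∧ (1 ≤ k → ∀ p : ℕ, p.Prime →
      ∀ χ : DirichletCharacter ℂ p, ∀ w : ℕ → ℝ, (∀ n, |w n| ≤ 1) → ∀ S : Finset (Fin k),
        ∀ N h : ℕ, 1 ≤ h → h ≤ p → p ≤ N →
          ‖DE (xc χ) w k S N h - GY χ w k S N h / N‖ ≤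
            C * (Real.sqrt h) ^ (k - 1) + 4 * (h : ℝ) ^ (k + 1) / p) := by
    intro k
    by_cases hk : 1 ≤ k
    · obtain ⟨C, h1, h2⟩ := DE_sub_GY k hk
      exact ⟨C, h1, fun _ => h2⟩
    · exact ⟨1, one_pos, fun h => absurd h hk⟩
  choose C1 hC1 hC1D using hC1e
  set D0 : ℝ := ∑ k ∈ range (L + 1), (8 + Real.sqrt (k ^ 2 + C0 (2 * k) + 2)) with hD0
  set D1 : ℝ := ∑ k ∈ range (L + 1), C1 k with hD1
  have hD0k : ∀ k : ℕ, k ≤ L → 8 + Real.sqrt ((k : ℝ) ^ 2 + C0 (2 * k) + 2) ≤ D0 := fun k hk =>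
    Finset.single_le_sum (f := fun k : ℕ => 8 + Real.sqrt ((k : ℝ) ^ 2 + C0 (2 * k) + 2))
      (fun _ _ => by positivity) (Finset.mem_range.2 (by omega))
  have hD1k : ∀ k ≤ L, C1 k ≤ D1 := fun k hk =>
    Finset.single_le_sum (f := C1) (fun i _ => (hC1 i).le) (Finset.mem_range.2 (by omega))
  have hD00 : 0 ≤ D0 := Finset.sum_nonneg fun _ _ => by positivity
  have hD10 : 0 ≤ D1 := Finset.sum_nonneg fun i _ => (hC1 i).le
  set H₀ : ℝ := (8 * K * D1) ^ 2 + 1 with hH₀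
  set η' : ℝ := min η 1 with hη'
  have hη'0 : 0 < η' := lt_min hη one_pos
  have hη'1 : η' ≤ 1 := min_le_right _ _
  have hη'2 : η' ≤ η := min_le_left _ _
  set c₀ : ℝ := η' / (4 * (L + 2)) with hc₀
  refine ⟨c₀, H₀, by positivity, ?_⟩
  intro c hc hcc
  have hcη' : c * (L + 2) ≤ η' / 4 := by
    have h1 : c * (4 * (L + 2)) ≤ η' := (le_div_iff₀ (by positivity)).1 hcc
    linarith
  have hcη : c * (2 * L + 3) ≤ η := by nlinarith
  have hcL : c * (L + 2) ≤ 1 := by linarith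
  set D : ℝ := (K * 2 ^ K + 1) * (32 * K * 13 * (32 * K ^ 2)) with hD
  have hDD : 0 < D := by positivity
  have hlim : ∀ᶠ P : ℕ in Filter.atTop, D + 11 + 32 * K + 32 * K ^ 2 * D0 ≤ (P : ℝ) ^ c :=
    ((tendsto_rpow_atTop hc).comp tendsto_natCast_atTop_atTop).eventually_ge_atTop _
  obtain ⟨P₀, hP₀⟩ := Filter.eventually_atTop.1 hlim
  obtain ⟨P₁, hP₁⟩ := Filter.eventually_atTop.1
    (((tendsto_rpow_atTop hη).comp tendsto_natCast_atTop_atTop).eventually_ge_atTop 2)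
  refine ⟨max (max P₀ P₁) 4, fun P hP => ?_⟩
  have hP4 : 4 ≤ P := (le_max_right _ _).trans hP
  have hPr : (4 : ℝ) ≤ P := by exact_mod_cast hP4
  have hP0 : (0 : ℝ) < P := by linarith
  have hP1 : (1 : ℝ) ≤ P := by linarith
  have hTM := hP₀ P ((le_max_left _ _).trans ((le_max_left _ _).trans hP))
  have hPη2 : 2 ≤ (P : ℝ) ^ η := hP₁ P ((le_max_right _ _).trans ((le_max_left _ _).trans hP))
  set T : ℝ := (P : ℝ) ^ c with hT
  set T' : ℝ := (P : ℝ) ^ β with hT'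
  have hT'1 : 1 ≤ T' := Real.one_le_rpow hP1 hβ
  have hK2 : 0 ≤ 32 * (K : ℝ) ^ 2 * D0 := by positivity
  have hT1 : (1 : ℝ) ≤ T := by nlinarith
  have hT0 : (0 : ℝ) < T := by linarith
  have hTD : D ≤ T := by nlinarith
  have hTK : 32 * (K : ℝ) ≤ T := by nlinarith
  have hTK2 : 32 * (K : ℝ) ^ 2 * D0 ≤ T := by nlinarith
  have hpow : ∀ j : ℕ, T ^ j = (P : ℝ) ^ (c * j) := by
    intro j
    rw [hT, Real.rpow_mul (by linarith), Real.rpow_natCast]
  have hTP : T ^ (L + 2) ≤ P := by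
    rw [hpow]
    calc (P : ℝ) ^ (c * ((L + 2 : ℕ) : ℝ)) ≤ (P : ℝ) ^ (1 : ℝ) :=
          Real.rpow_le_rpow_of_exponent_le hP1 (by push_cast; exact hcL)
      _ = P := Real.rpow_one _
  have hTη : T ^ (2 * L + 3) ≤ (P : ℝ) ^ η := by
    rw [hpow]
    exact Real.rpow_le_rpow_of_exponent_le hP1 (by push_cast; exact hcη)
  have hTη' : T ^ (L + 2) ≤ (P : ℝ) ^ (η' / 4) := by
    rw [hpow]
    exact Real.rpow_le_rpow_of_exponent_le hP1 (by push_cast; exact hcη')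
  have hTL : (1 : ℝ) ≤ T ^ L := one_le_pow₀ hT1
  have hTleP : T ≤ P := by
    refine le_trans ?_ hTP
    calc T = T ^ 1 := (pow_one T).symm
      _ ≤ T ^ (L + 2) := pow_le_pow_right₀ hT1 (by omega)
  have hx1 : (1 : ℝ) ≤ 8 * K * T ^ L := by nlinarith
  obtain ⟨s, hs1, hs2⟩ := exists_pow_two hx1
  obtain ⟨E, hE1, hE2⟩ := exists_E (T := T') (by linarith)
  set X : ℝ := (P : ℝ) ^ (1 + η) with hX
  have hX0 : 0 < X := Real.rpow_pos_of_pos hP0 _
  have hX2P : 2 * (P : ℝ) ≤ X := by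
    rw [hX, Real.rpow_add hP0, Real.rpow_one]
    nlinarith
  -- the number of bad primes at a point of the net
  set Y : ℝ := 32 * K ^ 2 * T ^ L with hY
  have hY0 : 0 ≤ Y := by positivity
  have hYb : ∀ (w : ℕ → ℝ), (∀ n, |w n| ≤ 1) → ∀ (k : ℕ), 1 ≤ k → k ≤ L → ∀ S : Finset (Fin k),
      ∀ h : ℕ, 1 ≤ h → H₀ ≤ (h : ℝ) → (h : ℝ) ≤ T → ∀ N : ℕ, X ≤ (N : ℝ) →
        ((Pt P K w k S N h).card : ℝ) ≤ Y := by
    intro w hw k hk1 hk2 S h hh1 hhH hhT N hN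
    have hh1' : (1 : ℝ) ≤ h := by exact_mod_cast hh1
    have hh0 : (0 : ℝ) < h := by linarith
    have hN0 : (0 : ℝ) < N := hX0.trans_le hN
    have hhP : h ≤ P := by exact_mod_cast hhT.trans hTleP
    have hPN : 2 * P ≤ N := by exact_mod_cast hX2P.trans hN
    have hsq1 : (1 : ℝ) ≤ Real.sqrt h := Real.one_le_sqrt.2 hh1'
    have hsqk : (1 : ℝ) ≤ (Real.sqrt h) ^ k := one_le_pow₀ hsq1
    have hhk : (h : ℝ) ^ k ≤ T ^ L :=
      (pow_le_pow_left₀ (Nat.cast_nonneg _) hhT k).trans (pow_le_pow_right₀ hT1 hk2)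
    have hhk1 : (h : ℝ) ^ (k + 1) ≤ T ^ (L + 1) :=
      (pow_le_pow_left₀ (Nat.cast_nonneg _) hhT _).trans (pow_le_pow_right₀ hT1 (by omega))
    set lam : ℝ := 1 / (2 * K) with hlam
    have hlam0 : 0 < lam := by positivity
    -- the condition `h2`
    have g1 : C1 k * (Real.sqrt h) ^ (k - 1) ≤ lam / 4 * (Real.sqrt h) ^ k := by
      have e1 : (Real.sqrt h) ^ k = (Real.sqrt h) ^ (k - 1) * Real.sqrt h := by
        rw [← pow_succ]; congr 1; omega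
      have e2 : 8 * K * D1 ≤ Real.sqrt h := by
        apply Real.le_sqrt_of_sq_le
        linarith
      have e3 : C1 k ≤ lam / 4 * Real.sqrt h := by
        have e4 : lam / 4 * (8 * K * D1) = D1 := by
          rw [hlam]; field_simp; ring
        calc C1 k ≤ D1 := hD1k k hk2
          _ = lam / 4 * (8 * K * D1) := e4.symm
          _ ≤ lam / 4 * Real.sqrt h := mul_le_mul_of_nonneg_left e2 (by positivity)
      rw [e1]
      calc C1 k * (Real.sqrt h) ^ (k - 1) ≤ (lam / 4 * Real.sqrt h) * (Real.sqrt h) ^ (k - 1) :=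
            mul_le_mul_of_nonneg_right e3 (by positivity)
        _ = _ := by ring
    have g2 : 4 * (h : ℝ) ^ (k + 1) / P ≤ lam / 4 * (Real.sqrt h) ^ k := by
      have e1 : 4 * (h : ℝ) ^ (k + 1) / P ≤ lam / 4 := by
        rw [div_le_iff₀ hP0]
        have e2 : 32 * (K : ℝ) * T ^ (L + 1) ≤ P := by
          calc 32 * (K : ℝ) * T ^ (L + 1) ≤ T * T ^ (L + 1) :=
                mul_le_mul_of_nonneg_right hTK (by positivity)
            _ = T ^ (L + 2) := by ring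
            _ ≤ P := hTP
        have e3 : lam / 4 * (32 * K * T ^ (L + 1)) = 4 * T ^ (L + 1) := by
          rw [hlam]; field_simp; ring
        calc 4 * (h : ℝ) ^ (k + 1) ≤ 4 * T ^ (L + 1) := by linarith
          _ = lam / 4 * (32 * K * T ^ (L + 1)) := e3.symm
          _ ≤ lam / 4 * P := mul_le_mul_of_nonneg_left e2 (by positivity)
      exact e1.trans (le_mul_of_one_le_right (by positivity) hsqk)
    have h2 : C1 k * (Real.sqrt h) ^ (k - 1) + 4 * (h : ℝ) ^ (k + 1) / P ≤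
        lam / 2 * (Real.sqrt h) ^ k := by
      calc _ ≤ lam / 4 * (Real.sqrt h) ^ k + lam / 4 * (Real.sqrt h) ^ k := add_le_add g1 g2
        _ = _ := by ring
    -- the condition `h3`
    have hNη' : (P : ℝ) ^ (1 + η') ≤ N :=
      le_trans (Real.rpow_le_rpow_of_exponent_le hP1 (by linarith)) hN
    have h3 : (h : ℝ) ^ k * ((8 + Real.sqrt (k ^ 2 + C0 (2 * k) + 2)) *
        (P : ℝ) ^ (-(η' / 4))) ≤ lam ^ 2 / 8 := by
      have e1 : 0 < (P : ℝ) ^ (η' / 4) := Real.rpow_pos_of_pos hP0 _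
      have e5 : lam ^ 2 / 8 = 1 / (32 * K ^ 2) := by
        rw [hlam]; field_simp; ring
      rw [Real.rpow_neg hP0.le, ← div_eq_mul_inv, mul_div_assoc', e5, div_le_div_iff₀ e1
        (by positivity), one_mul]
      have e6 : 0 ≤ 8 + Real.sqrt ((k : ℝ) ^ 2 + C0 (2 * k) + 2) := by positivity
      calc (h : ℝ) ^ k * (8 + Real.sqrt (k ^ 2 + C0 (2 * k) + 2)) * (32 * K ^ 2)
          ≤ T ^ L * D0 * (32 * K ^ 2) := by
            apply mul_le_mul_of_nonneg_right _ (by positivity)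
            exact mul_le_mul hhk (hD0k k hk2) e6 (by positivity)
        _ = T ^ L * (32 * K ^ 2 * D0) := by ring
        _ ≤ T ^ L * T := mul_le_mul_of_nonneg_left hTK2 (by positivity)
        _ = T ^ (L + 1) := by ring
        _ ≤ T ^ (L + 2) := pow_le_pow_right₀ hT1 (by omega)
        _ ≤ _ := hTη'
    have hex : ∀ p : ℕ, ∃ ψ : DirichletCharacter ℂ p, p ∈ Pt P K w k S N h →
        ψ ≠ 1 ∧ lam * (Real.sqrt h) ^ k < ‖DE (xc ψ) w k S N h‖ := by
      intro p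
      by_cases hp : p ∈ Pt P K w k S N h
      · have hp' := hp
        unfold Pt at hp'
        rw [mem_filter] at hp'
        obtain ⟨ψ, h4, h5⟩ := hp'.2
        exact ⟨ψ, fun _ => ⟨h4, h5⟩⟩
      · exact ⟨1, fun h => absurd h hp⟩
    choose ψ hψ using hex
    have hfin := card_badK hk1 (hC1D k hk1) (by omega : 1 ≤ P) hh1 hhP hPN hlam0
      h2 (by positivity)
      (cross_pow k (hC0 (2 * k)) (hC0W (2 * k)) hη'0 hη'1 hP4 hhP hNη')
      h3 hw S (Pt P K w k S N h) (Finset.filter_subset _ _) ψ (fun p hp => (hψ p hp).1)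
      (fun p hp => (hψ p hp).2)
    refine hfin.trans ?_
    have e7 : 8 * (h : ℝ) ^ k / lam ^ 2 = 32 * K ^ 2 * (h : ℝ) ^ k := by
      rw [hlam]; field_simp; ring
    rw [e7, hY]
    exact mul_le_mul_of_nonneg_left hhk (by positivity)
  have hmu : ∀ n, |mu n| ≤ 1 := by
    intro n
    unfold mu
    have := ArithmeticFunction.abs_moebius_le_one (n := n)
    exact_mod_cast this
  set B1 : Finset ℕ := (Icc 1 K).biUnion fun k =>
    (Finset.univ : Finset (Finset (Fin k))).biUnion fun S => Un P K T X H₀ s E mu k S with hB1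
  set B2 : Finset ℕ := Un P K T X H₀ s E (fun _ => 1) 2 {0} with hB2
  set Z : ℝ := T * (2 ^ (s + 1) * ((E : ℝ) + 1) * Y) with hZ
  have hZ0 : 0 ≤ Z := by positivity
  refine ⟨B1 ∪ B2, ?_, ?_⟩
  · have d1 : ∀ k ∈ Icc 1 K, (((Finset.univ : Finset (Finset (Fin k))).biUnion fun S =>
        Un P K T X H₀ s E mu k S).card : ℝ) ≤ 2 ^ K * Z := by
      intro k hk
      rw [mem_Icc] at hk
      have d2 := card_bU' (s := (Finset.univ : Finset (Finset (Fin k))))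
        (f := fun S => Un P K T X H₀ s E mu k S) (x := Z) fun S _ =>
        card_Un P K hT0.le s E mu k S hY0 (hYb mu hmu k hk.1 (by omega) S)
      refine d2.trans ?_
      refine mul_le_mul_of_nonneg_right ?_ hZ0
      rw [Finset.card_univ, Fintype.card_finset, Fintype.card_fin]
      push_cast
      exact pow_le_pow_right₀ (by norm_num) hk.2
    have d3 : (B1.card : ℝ) ≤ K * (2 ^ K * Z) := by
      have := card_bU' d1
      rw [Nat.card_Icc, Nat.add_sub_cancel] at this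
      exact this
    have d4 : (B2.card : ℝ) ≤ Z :=
      card_Un P K hT0.le s E (fun _ => 1) 2 {0} hY0
        (hYb (fun _ => 1) (fun _ => by simp) 2 (by norm_num) (by omega) {0})
    have d5 : ((B1 ∪ B2).card : ℝ) ≤ (K * 2 ^ K + 1) * Z := by
      have : ((B1 ∪ B2).card : ℝ) ≤ (B1.card : ℝ) + B2.card := by
        exact_mod_cast Finset.card_union_le B1 B2
      linarith
    refine d5.trans ?_
    have e2 : (2 : ℝ) ^ (s + 1) ≤ 32 * K * T ^ L := by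
      rw [pow_succ]
      linarith
    have e3 : (E : ℝ) + 1 ≤ 13 * T' := by linarith
    have e4 : Z ≤ T * (32 * K * T ^ L * (13 * T') * Y) := by
      rw [hZ]
      refine mul_le_mul_of_nonneg_left ?_ hT0.le
      refine mul_le_mul_of_nonneg_right ?_ hY0
      exact mul_le_mul e2 e3 (by positivity) (by positivity)
    calc ((K : ℝ) * 2 ^ K + 1) * Z
        ≤ (K * 2 ^ K + 1) * (T * (32 * K * T ^ L * (13 * T') * Y)) :=
          mul_le_mul_of_nonneg_left e4 (by positivity)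
      _ = T' * (D * T ^ (2 * L + 1)) := by
          rw [hD, hY]
          ring
      _ ≤ T' * (T * T ^ (2 * L + 1)) := by
          gcongr
      _ = T' * T ^ (2 * L + 2) := by ring
      _ ≤ T' * T ^ (2 * L + 3) :=
          mul_le_mul_of_nonneg_left (pow_le_pow_right₀ hT1 (by omega)) (by linarith)
      _ ≤ T' * (P : ℝ) ^ η := mul_le_mul_of_nonneg_left hTη (by linarith)
      _ = (P : ℝ) ^ (β + η) := by rw [hT', ← Real.rpow_add hP0]
  · intro p hp hpB χ hχ h hhH hhT N hN1 hN2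
    rw [Finset.mem_union, not_or] at hpB
    have hh1 : 1 ≤ h := by
      have : (1 : ℝ) ≤ h := by
        have : 0 ≤ (8 * K * D1) ^ 2 := sq_nonneg _
        linarith
      exact_mod_cast this
    constructor
    · intro k hk S
      have hk' := mem_Icc.1 hk
      have f1 : p ∉ Un P K T X H₀ s E mu k S := by
        intro hmem
        apply hpB.1
        rw [hB1]
        simp only [mem_biUnion]
        exact ⟨k, hk, S, mem_univ _, hmem⟩
      exact good_of_not_memK hp hK hT1 hX0 hmu (by omega : k ≤ L) hs1 hE1 f1 hχ hh1 hhH hhT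
        hN1 hN2
    · have f2 := good_of_not_memK hp hK hT1 hX0 (fun _ => by simp) (by omega : 2 ≤ L) hs1 hE1
        hpB.2 hχ hh1 hhH hhT hN1 hN2
      rwa [Real.sq_sqrt (Nat.cast_nonneg _)] at f2

end Pool.Agent.P4f18dfY
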