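import Pool.Agent.Lib.P4f18dfY.NetY
import Pool.Agent.Lib.P4f18dfY.CoreG

/-!
# Assembly
-/

set_option autoImplicit false

namespace Pool.Agent.P4f18dfY

open Finset Filter MeasureTheory ProbabilityTheory
open Pool.Agent.P4f18df Pool.Agent.P4f18dfQ Pool.Agent.P4f18dfT Pool.Agent.P4f18dfC

open Classical in
/-- the real function attached to a nonprincipal character and a direction: `μ χ` for a real character, the normalised real part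
of `u μ χ` otherwise -/
noncomputable def fy {q : ℕ} (χ : DirichletCharacter ℂ q) (u : ℂ) (n : ℕ) : ℝ :=
  if χ ^ 2 = 1 then mu n * (χ (n : ZMod q)).re else cu (fun n => χ (n : ZMod q)) u n

namespace FinYAux

lemma abs_mu_le (n : ℕ) : |mu n| ≤ 1 := by
  unfold mu
  have := ArithmeticFunction.abs_moebius_le_one (n := n)
  exact_mod_cast this

lemma xc_sq {q : ℕ} (χ : DirichletCharacter ℂ q) (n : ℕ) : xc χ n ^ 2 = xc (χ ^ 2) n := by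
  unfold xc
  split_ifs
  · norm_num
  · rw [MulChar.pow_apply' χ (by norm_num : (2:ℕ) ≠ 0)]

lemma im_zero {q : ℕ} (hq : q.Prime) {χ : DirichletCharacter ℂ q} (h : χ ^ 2 = 1) (n : ℕ) :
    (xc χ n).im = 0 := by
  have h1 : xc χ n ^ 2 = 1 := by
    rw [xc_sq, h]
    unfold xc
    split_ifs with hd
    · rfl
    · have : Fact q.Prime := ⟨hq⟩
      have hu : IsUnit (n : ZMod q) := by
        rw [ZMod.isUnit_iff_coprime]
        exact ((hq.coprime_iff_not_dvd).2 hd).symm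
      exact MulChar.one_apply hu
  have h3 : (xc χ n - 1) * (xc χ n + 1) = 0 := by linear_combination h1
  rcases mul_eq_zero.1 h3 with h4 | h4
  · have h2 : xc χ n = 1 := by linear_combination h4
    rw [h2]; simp
  · have h2 : xc χ n = -1 := by linear_combination h4
    rw [h2]; simp

lemma abs_re_le (g : ℕ → ℂ) (hg : ∀ n, ‖g n‖ ≤ 1) (n : ℕ) : |mu n * (g n).re| ≤ 2 := by
  rw [abs_mul]
  have h1 := abs_mu_le n
  have h2 := (Complex.abs_re_le_norm (g n)).trans (hg n)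
  calc |mu n| * |(g n).re| ≤ 1 * 1 := mul_le_mul h1 h2 (abs_nonneg _) zero_le_one
    _ ≤ 2 := by norm_num

end FinYAux

open FinYAux in
theorem main_y (hWH : ∀ m : ℕ, ∃ C : ℝ, 0 ≤ C ∧ WH m C) (η δ : ℝ) (L : ℕ) (hη : 0 < η)
    (hδ : 0 < δ) :
    ∃ c H₀ : ℝ, ∃ P₀ : ℕ, 0 < c ∧ ∀ P : ℕ, P₀ ≤ P →
      ∃ B : Finset ℕ, (B.card : ℝ) ≤ (P : ℝ) ^ η ∧
        ∀ q : ℕ, q.Prime → P < q → q ≤ 2 * P → q ∉ B →
          ∀ χ : DirichletCharacter ℂ q, χ ≠ 1 → ∀ u : ℂ, ‖u‖ = 1 →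
            ∀ X H : ℝ, (P : ℝ) ^ (2 + η) ≤ X → X ≤ Real.exp ((P : ℝ) ^ c) → H₀ ≤ H →
              H ≤ (P : ℝ) ^ c →
                (∀ t, |Gd (fy χ u) X H t - cdf (gaussianReal 0 1) t| ≤ δ) ∧
                  (∀ k ≤ L, |Md (fy χ u) k X H - gm k| ≤ δ) := by
  classical
  obtain ⟨K, hK1, c₁, hc₁, hc₁1, P₃, hcore⟩ := coreG δ L hδ
  obtain ⟨K₁, hKK₁, hcu⟩ := good_cu K hK1
  obtain ⟨K₂, hKK₂, hre⟩ := good_real K hK1
  have hK₁1 : 1 ≤ K₁ := hK1.trans hKK₁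
  obtain ⟨c₀, H₁, hc₀, hnet⟩ := bad_netY hWH K₁ hK₁1 (η / 2) (by positivity)
  set c : ℝ := min c₀ c₁ with hc
  have hc0 : 0 < c := lt_min hc₀ hc₁
  have hcc₁ : c ≤ c₁ := min_le_right _ _
  have hc1 : c ≤ 1 := hcc₁.trans hc₁1
  obtain ⟨P₁, hP₁⟩ := hnet c hc0 (min_le_left _ _)
  obtain ⟨P₂, hP₂⟩ := eventually_atTop.1
    ((ev_rpow_le (η / 2) 4 (by positivity)).and (eventually_ge_atTop (max (max P₁ P₃) 4)))
  set H₀ : ℝ := max (H₁ + 1) ((K : ℝ) + K₁ + K₂ + 1) with hH₀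
  have hH₀1 : H₁ + 1 ≤ H₀ := le_max_left _ _
  have hH₀2 : (K : ℝ) + K₁ + K₂ + 1 ≤ H₀ := le_max_right _ _
  refine ⟨c, H₀, P₂, hc0, ?_⟩
  intro P hP
  obtain ⟨g1, g2⟩ := hP₂ P hP
  have hPP₁ : P₁ ≤ P := (le_max_left _ _).trans ((le_max_left _ _).trans g2)
  have hPP₃ : P₃ ≤ P := (le_max_right _ _).trans ((le_max_left _ _).trans g2)
  have hP4 : 4 ≤ P := (le_max_right _ _).trans g2
  have hPr : (4 : ℝ) ≤ P := by exact_mod_cast hP4
  have hP0 : (0 : ℝ) < P := by linarith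
  have hP1 : (1 : ℝ) ≤ P := by linarith
  obtain ⟨B, hB, hBg⟩ := hP₁ P hPP₁
  refine ⟨B, hB.trans (Real.rpow_le_rpow_of_exponent_le hP1 (by linarith)), ?_⟩
  intro q hq hPq hq2 hqB χ hχ u hu X H hX1 hX2 hH1 hH2
  have hqPP : q ∈ PP P := mem_PP.2 ⟨⟨hPq, hq2⟩, hq⟩
  have hPqr : (P : ℝ) ≤ q := by exact_mod_cast hPq.le
  have hq2r : (q : ℝ) ≤ 2 * P := by exact_mod_cast hq2
  have hq0 : (0 : ℝ) < q := by linarith
  have hK0 : (0 : ℝ) ≤ K := Nat.cast_nonneg _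
  have hK₁0 : (0 : ℝ) ≤ K₁ := Nat.cast_nonneg _
  have hK₂0 : (0 : ℝ) ≤ K₂ := Nat.cast_nonneg _
  have hP2 : (P : ℝ) ^ 2 ≤ (P : ℝ) ^ (2 + η / 2) := by
    rw [← Real.rpow_natCast]
    apply Real.rpow_le_rpow_of_exponent_le hP1
    push_cast
    linarith
  have hXe : (P : ℝ) ^ (2 + η) = (P : ℝ) ^ (2 + η / 2) * (P : ℝ) ^ (η / 2) := by
    rw [← Real.rpow_add hP0]; congr 1; ring
  have hX4 : 4 * (P : ℝ) ^ (2 + η / 2) ≤ X := by
    refine le_trans ?_ hX1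
    rw [hXe]
    have : 0 < (P : ℝ) ^ (2 + η / 2) := Real.rpow_pos_of_pos hP0 _
    nlinarith
  have hqX : (q : ℝ) ≤ X := by nlinarith
  have hHq : H ≤ (q : ℝ) ^ c₁ := by
    calc H ≤ (P : ℝ) ^ c := hH2
      _ ≤ (P : ℝ) ^ c₁ := Real.rpow_le_rpow_of_exponent_le hP1 hcc₁
      _ ≤ (q : ℝ) ^ c₁ := Real.rpow_le_rpow hP0.le hPqr hc₁.le
  have hH0 : 0 ≤ H := by linarith
  have hfl1 : H < (⌊H⌋₊ : ℝ) + 1 := Nat.lt_floor_add_one _
  have hfl2 : (⌊H⌋₊ : ℝ) ≤ H := Nat.floor_le hH0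
  have hflP : (⌊H⌋₊ : ℝ) ≤ (P : ℝ) ^ c := hfl2.trans hH2
  have hPcP : (P : ℝ) ^ c ≤ P := by
    calc (P : ℝ) ^ c ≤ (P : ℝ) ^ (1:ℝ) := Real.rpow_le_rpow_of_exponent_le hP1 hc1
      _ = P := Real.rpow_one _
  have hh1 : H₁ ≤ (⌊H⌋₊ : ℝ) := by linarith
  have hhK₁ : K₁ ≤ ⌊H⌋₊ := Nat.le_floor (by linarith)
  have hhK₂ : K₂ ≤ ⌊H⌋₊ := Nat.le_floor (by linarith)
  have hxn : ∀ ψ : DirichletCharacter ℂ q, ∀ n, ‖xc ψ n‖ = 1 := fun ψ => norm_xc ψ hq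
  -- what is known at each scale
  have hsc : ∀ N : ℕ, X / 4 ≤ N → (N : ℝ) ≤ X →
      1 ≤ N ∧ ⌊H⌋₊ ≤ N ∧ (P : ℝ) ^ (2 + η / 2) ≤ N ∧ (N : ℝ) ≤ Real.exp ((P : ℝ) ^ c) := by
    intro N h1 h2
    have h3 : (P : ℝ) ^ (2 + η / 2) ≤ N := by linarith
    have h4 : (P : ℝ) ≤ N := by nlinarith
    refine ⟨?_, ?_, h3, h2.trans hX2⟩
    · have : (1 : ℝ) ≤ N := by linarith
      exact_mod_cast this
    · have : (⌊H⌋₊ : ℝ) ≤ N := by linarith
      exact_mod_cast this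
  have hKK₁r : (1 / K₁ : ℝ) ≤ 1 / K := by
    have : (1 : ℝ) ≤ K := by exact_mod_cast hK1
    exact one_div_le_one_div_of_le (by linarith) (by exact_mod_cast hKK₁)
  by_cases hsq : χ ^ 2 = 1
  · have e : fy χ u = fun n => mu n * (χ (n : ZMod q)).re := by
      funext n
      unfold fy
      rw [if_pos hsq]
    rw [e]
    apply hcore q hq (hPP₃.trans hPq.le) _ (fun n => mu n * (xc χ n).re)
      (abs_re_le (fun n => χ (n : ZMod q)) (norm_chi_le χ))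
      (abs_re_le (xc χ) (fun n => (hxn χ n).le)) _ X H hqX (by linarith) hHq
    · intro N h1 h2
      obtain ⟨i1, i2, i3, i4⟩ := hsc N h1 h2
      refine hre q hq χ (im_zero hq hsq) N _ i1 hhK₂ i2 ?_
      intro k hk
      rw [Finset.mem_Icc] at hk
      have h5 := (hBg q hqPP hqB χ hχ ⌊H⌋₊ hh1 hflP N i3 i4).1 k
        (Finset.mem_Icc.2 ⟨hk.1, hk.2.trans hKK₁⟩) univ
      exact h5.trans (mul_le_mul_of_nonneg_right hKK₁r (by positivity))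
    · intro n hn
      unfold xc
      rw [if_neg hn]
  · have e : fy χ u = cu (fun n => χ (n : ZMod q)) u := by
      funext n
      unfold fy
      rw [if_neg hsq]
    rw [e]
    apply hcore q hq (hPP₃.trans hPq.le) _ (cu (xc χ) u)
      (abs_cu_le (norm_chi_le χ) hu) (abs_cu_le (fun n => (hxn χ n).le) hu) _ X H hqX
      (by linarith) hHq
    · intro N h1 h2
      obtain ⟨i1, i2, i3, i4⟩ := hsc N h1 h2
      refine hcu (xc χ) (hxn χ) u hu N _ i1 hhK₁ i2 ⟨?_, ?_⟩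
      · exact (hBg q hqPP hqB χ hχ ⌊H⌋₊ hh1 hflP N i3 i4).1
      · have h6 := (hBg q hqPP hqB (χ ^ 2) hsq ⌊H⌋₊ hh1 hflP N i3 i4).2
        have h7 : (fun n => xc χ n ^ 2) = xc (χ ^ 2) := by
          funext n; exact xc_sq χ n
        rw [h7]
        exact h6
    · intro n hn
      unfold cu xc
      rw [if_neg hn]

end Pool.Agent.P4f18dfY
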