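import Pool.Agent.Lib.P4f18dfY.FinK

/-!
# One set of primes; the limit law for all nonprincipal characters
-/

set_option autoImplicit false

namespace Pool.Agent.P4f18dfY

open Finset Filter Topology MeasureTheory ProbabilityTheory
open Pool.Agent.P4f18df Pool.Agent.P4f18dfQ Pool.Agent.P4f18dfT Pool.Agent.P4f18dfC

/-- closeness to the normal law for all nonprincipal characters modulo `q` -/
def GoodQ (δ : ℝ) (L q : ℕ) (X H : ℝ) : Prop :=
  ∀ χ : DirichletCharacter ℂ q, χ ≠ 1 → ∀ u : ℂ, ‖u‖ = 1 →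
    (∀ t, |Gd (fy χ u) X H t - cdf (gaussianReal 0 1) t| ≤ δ) ∧
      (∀ k ≤ L, |Md (fy χ u) k X H - gm k| ≤ δ)

theorem goodQ_mono {δ δ' : ℝ} {L L' q : ℕ} {X H : ℝ} (hδ : δ' ≤ δ) (hL : L ≤ L')
    (h : GoodQ δ' L' q X H) : GoodQ δ L q X H := fun χ hχ u hu =>
  ⟨fun t => ((h χ hχ u hu).1 t).trans hδ, fun k hk => ((h χ hχ u hu).2 k (hk.trans hL)).trans hδ⟩

namespace LimKAux

/-- the statement holds at stage `j` -/
def Ok (β η : ℝ) (j : ℕ) (c H₀ : ℝ) (P q : ℕ) : Prop :=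
  ∀ X H : ℝ, (P : ℝ) ^ (1 + η / 8) ≤ X → X ≤ Real.exp ((P : ℝ) ^ (β + η / 8)) → H₀ ≤ H →
    H ≤ (P : ℝ) ^ c → GoodQ (1 / ((j : ℝ) + 1)) j q X H

theorem stage (β η : ℝ) (hβ : 0 ≤ β) (hη : 0 < η) (j : ℕ) :
    ∃ c H₀ : ℝ, ∃ N : ℕ, 0 < c ∧ ∀ P : ℕ, N ≤ P → ∀ S : Finset ℕ,
      (∀ q ∈ S, q.Prime ∧ P < q ∧ q ≤ 2 * P ∧ ¬ Ok β η j c H₀ P q) →
      (S.card : ℝ) ≤ (P : ℝ) ^ (β + η / 4) := by
  obtain ⟨c, H₀, P₀, hc, h⟩ := law_k (β + η / 8) (η / 8) (1 / ((j : ℝ) + 1)) j (by positivity)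
    (by positivity) (by positivity)
  refine ⟨c, H₀, P₀, hc, ?_⟩
  intro P hP S hS
  obtain ⟨B, hB, hB'⟩ := h P hP
  have hsub : S ⊆ B := by
    intro q hq
    obtain ⟨h1, h2, h3, h4⟩ := hS q hq
    by_contra hqB
    exact h4 (fun X H a1 a2 a3 a4 χ hχ u hu => hB' q h1 h2 h3 hqB χ hχ u hu X H a1 a2 a3 a4)
  calc (S.card : ℝ) ≤ B.card := by exact_mod_cast Finset.card_le_card hsub
    _ ≤ (P : ℝ) ^ (β + η / 8 + η / 8) := hB
    _ = _ := by congr 1; ring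

theorem num_bound (β η : ℝ) (hβ : 0 ≤ β) (hη : 0 < η) : ∀ᶠ P : ℕ in atTop, ∀ m m' : ℕ,
    m = Nat.log 2 P → (m' = m ∨ m' = m + 1) →
    ((m' : ℝ) + 1) * ((2 ^ m' : ℕ) : ℝ) ^ (β + η / 4) ≤ (P : ℝ) ^ (β + η) / 2 := by
  have h1 := (isLittleO_log_rpow_atTop (by positivity : 0 < η / 4)).bound (zero_lt_one)
  have h2 := tendsto_natCast_atTop_atTop (R := ℝ) |>.eventually h1
  have h3 : ∀ᶠ P : ℕ in atTop, 6 * (2 : ℝ) ^ (β + η / 4) ≤ (P : ℝ) ^ (η / 4) :=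
    ((tendsto_rpow_atTop (by positivity : 0 < η / 4)).comp
      tendsto_natCast_atTop_atTop).eventually_ge_atTop _
  have hlim : Tendsto (fun P : ℕ => Real.log (P : ℝ)) atTop atTop :=
    Real.tendsto_log_atTop.comp tendsto_natCast_atTop_atTop
  filter_upwards [h2, h3, hlim.eventually_ge_atTop 4, eventually_ge_atTop 4]
    with P hL hP2 hL4 hP4 m m' hm hm'
  have hPR : (4 : ℝ) ≤ P := by exact_mod_cast hP4
  have hPpos : (0 : ℝ) < P := by linarith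
  have hP1 : (1 : ℝ) ≤ P := by linarith
  set L := Real.log (P : ℝ) with hLdef
  rw [Real.norm_of_nonneg (by linarith), Real.norm_of_nonneg (Real.rpow_nonneg hPpos.le _),
    one_mul] at hL
  have h2m : 2 ^ m ≤ P := by
    rw [hm]; exact Nat.pow_log_le_self 2 (by omega)
  have hmL : (m : ℝ) * Real.log 2 ≤ L := by
    have h4 : Real.log ((2 ^ m : ℕ) : ℝ) ≤ L :=
      Real.log_le_log (by positivity) (by exact_mod_cast h2m)
    rwa [Nat.cast_pow, Nat.cast_ofNat, Real.log_pow] at h4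
  have hl2 : 0.6931471803 < Real.log 2 := Real.log_two_gt_d9
  have hm'1 : (m' : ℝ) ≤ m + 1 := by
    rcases hm' with h | h <;> rw [h]
    · linarith
    · push_cast; linarith
  have hm3 : (m' : ℝ) + 1 ≤ 3 * L := by nlinarith
  have hpow2 : ((2 ^ m' : ℕ) : ℝ) ≤ 2 * P := by
    have : 2 ^ m' ≤ 2 * P := by
      rcases hm' with h | h <;> rw [h]
      · omega
      · rw [pow_succ]; omega
    exact_mod_cast this
  have e1 : ((2 ^ m' : ℕ) : ℝ) ^ (β + η / 4) ≤ 2 ^ (β + η / 4) * (P : ℝ) ^ (β + η / 4) := by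
    rw [← Real.mul_rpow (by norm_num) hPpos.le]
    exact Real.rpow_le_rpow (Nat.cast_nonneg _) hpow2 (by positivity)
  have e2 : 0 ≤ ((2 ^ m' : ℕ) : ℝ) ^ (β + η / 4) := Real.rpow_nonneg (Nat.cast_nonneg _) _
  have e3 : 0 < (P : ℝ) ^ (β + η / 4) := Real.rpow_pos_of_pos hPpos _
  have e4 : 0 < (P : ℝ) ^ (η / 4) := Real.rpow_pos_of_pos hPpos _
  have e5 : (P : ℝ) ^ (β + η / 4) * (P : ℝ) ^ (η / 4) * (P : ℝ) ^ (η / 4) ≤
      (P : ℝ) ^ (β + η) := by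
    rw [← Real.rpow_add hPpos, ← Real.rpow_add hPpos]
    exact Real.rpow_le_rpow_of_exponent_le hP1 (by linarith)
  have e6 : 0 < (2 : ℝ) ^ (β + η / 4) := Real.rpow_pos_of_pos (by norm_num) _
  calc ((m' : ℝ) + 1) * ((2 ^ m' : ℕ) : ℝ) ^ (β + η / 4)
      ≤ (3 * L) * (2 ^ (β + η / 4) * (P : ℝ) ^ (β + η / 4)) := by
        apply mul_le_mul hm3 e1 e2 (by linarith)
    _ ≤ (3 * (P : ℝ) ^ (η / 4)) * (2 ^ (β + η / 4) * (P : ℝ) ^ (β + η / 4)) := by
        apply mul_le_mul_of_nonneg_right _ (by positivity)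
        linarith
    _ = (P : ℝ) ^ (β + η / 4) * (P : ℝ) ^ (η / 4) * (6 * 2 ^ (β + η / 4)) / 2 := by ring
    _ ≤ (P : ℝ) ^ (β + η / 4) * (P : ℝ) ^ (η / 4) * (P : ℝ) ^ (η / 4) / 2 := by
        apply div_le_div_of_nonneg_right _ (by norm_num)
        exact mul_le_mul_of_nonneg_left hP2 (by positivity)
    _ ≤ (P : ℝ) ^ (β + η) / 2 := div_le_div_of_nonneg_right e5 (by norm_num)

end LimKAux

open LimKAux

/-- one set of primes for all accuracies -/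
theorem diagK (β η : ℝ) (hβ : 0 ≤ β) (hη : 0 < η) :
    ∃ 𝒬 : Set ℕ, (∀ q ∈ 𝒬, q.Prime) ∧
      (∀ᶠ P : ℕ in atTop, ∀ S : Finset ℕ, (∀ q ∈ S, q.Prime ∧ P < q ∧ q ≤ 2 * P ∧ q ∉ 𝒬) →
        (S.card : ℝ) ≤ (P : ℝ) ^ (β + η)) ∧
      ∀ (δ : ℝ) (L : ℕ), 0 < δ →
        ∃ c H₀ : ℝ, ∃ q₀ : ℕ, 0 < c ∧ ∀ q ∈ 𝒬, q₀ ≤ q → ∀ X H : ℝ,
          (q : ℝ) ^ (1 + η) ≤ X → X ≤ Real.exp ((q : ℝ) ^ β) → H₀ ≤ H → H ≤ (q : ℝ) ^ c →
            GoodQ δ L q X H := by
  classical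
  choose c H₀ N hc hN using fun j => stage β η hβ hη j
  refine ⟨{q | q.Prime ∧ ∀ m j : ℕ, j ≤ m → N j ≤ 2 ^ m → 2 ^ m < q → q ≤ 2 ^ (m + 1) →
    Ok β η j (c j) (H₀ j) (2 ^ m) q}, fun q hq => hq.1, ?_, ?_⟩
  · -- counting
    filter_upwards [num_bound β η hβ hη, eventually_ge_atTop 4] with P hnum hP4 S hS
    set m := Nat.log 2 P with hm
    have h2m : 2 ^ m ≤ P := Nat.pow_log_le_self 2 (by omega)
    have h2m1 : P < 2 ^ (m + 1) := Nat.lt_pow_succ_log_self (by norm_num) P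
    -- the bad primes at stage `j` in the dyadic block `m'`
    set T : ℕ → ℕ → Finset ℕ := fun m' j => S.filter (fun p => N j ≤ 2 ^ m' ∧ 2 ^ m' < p ∧
      p ≤ 2 ^ (m' + 1) ∧ ¬ Ok β η j (c j) (H₀ j) (2 ^ m') p) with hT
    have hTc : ∀ m' j, ((T m' j).card : ℝ) ≤ ((2 ^ m' : ℕ) : ℝ) ^ (β + η / 4) := by
      intro m' j
      by_cases hNj : N j ≤ 2 ^ m'
      · refine hN j (2 ^ m') hNj (T m' j) ?_
        intro p hp
        rw [hT, mem_filter] at hp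
        obtain ⟨hpS, -, h2, h3, h4⟩ := hp
        refine ⟨(hS p hpS).1, h2, ?_, h4⟩
        rw [pow_succ] at h3
        omega
      · have : T m' j = ∅ := by
          rw [hT, filter_eq_empty_iff]
          rintro p - ⟨h1, -⟩
          exact hNj h1
        rw [this, card_empty, Nat.cast_zero]
        exact Real.rpow_nonneg (Nat.cast_nonneg _) _
    have hcov : S ⊆ (range (m + 1)).biUnion (T m) ∪ (range (m + 2)).biUnion (T (m + 1)) := by
      intro p hp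
      obtain ⟨h1, h2, h3, h4⟩ := hS p hp
      have h4' : ¬ (∀ m j : ℕ, j ≤ m → N j ≤ 2 ^ m → 2 ^ m < p → p ≤ 2 ^ (m + 1) →
          Ok β η j (c j) (H₀ j) (2 ^ m) p) := fun hh => h4 ⟨h1, hh⟩
      push Not at h4'
      obtain ⟨m', j, hj, hNj, hp1, hp2, hnot⟩ := h4'
      have hmm : m' = m ∨ m' = m + 1 := by
        have a1 : 2 ^ m < 2 ^ (m' + 1) := by omega
        have a2 : 2 ^ m' < 2 ^ (m + 2) := by
          have : 2 ^ (m + 2) = 2 * 2 ^ (m + 1) := by rw [pow_succ]; ring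
          omega
        have b1 := (Nat.pow_lt_pow_iff_right (by norm_num : 1 < 2)).1 a1
        have b2 := (Nat.pow_lt_pow_iff_right (by norm_num : 1 < 2)).1 a2
        omega
      have hmem : p ∈ T m' j := by
        rw [hT, mem_filter]
        exact ⟨hp, hNj, hp1, hp2, hnot⟩
      rw [mem_union, mem_biUnion, mem_biUnion]
      rcases hmm with h | h
      · left
        subst h
        exact ⟨j, mem_range.2 (by omega), hmem⟩
      · right
        subst h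
        exact ⟨j, mem_range.2 (by omega), hmem⟩
    have hb : ∀ m' : ℕ, (((range (m' + 1)).biUnion (T m')).card : ℝ) ≤
        ((m' : ℝ) + 1) * ((2 ^ m' : ℕ) : ℝ) ^ (β + η / 4) := by
      intro m'
      calc (((range (m' + 1)).biUnion (T m')).card : ℝ)
          ≤ ∑ j ∈ range (m' + 1), ((T m' j).card : ℝ) := by exact_mod_cast card_biUnion_le
        _ ≤ ∑ _j ∈ range (m' + 1), ((2 ^ m' : ℕ) : ℝ) ^ (β + η / 4) :=
            sum_le_sum fun j _ => hTc m' j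
        _ = _ := by rw [sum_const, card_range, nsmul_eq_mul]; push_cast; ring
    have e1 := hnum m m rfl (Or.inl rfl)
    have e2 := hnum m (m + 1) rfl (Or.inr rfl)
    calc (S.card : ℝ) ≤ (((range (m + 1)).biUnion (T m) ∪
          (range (m + 2)).biUnion (T (m + 1))).card : ℝ) := by exact_mod_cast card_le_card hcov
      _ ≤ (((range (m + 1)).biUnion (T m)).card : ℝ) +
          (((range (m + 1 + 1)).biUnion (T (m + 1))).card : ℝ) := by
          exact_mod_cast card_union_le _ _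
      _ ≤ (P : ℝ) ^ (β + η) / 2 + (P : ℝ) ^ (β + η) / 2 :=
          add_le_add ((hb m).trans e1) ((hb (m + 1)).trans e2)
      _ = _ := by ring
  · -- the uniform statement
    intro δ L hδ
    obtain ⟨j₀, hj₀⟩ := exists_nat_gt (1 / δ)
    set j := j₀ + L with hj
    have hjδ : 1 / ((j : ℝ) + 1) ≤ δ := by
      have h1 : 1 / δ < (j : ℝ) + 1 := by
        rw [hj]; push_cast
        have : (0 : ℝ) ≤ L := Nat.cast_nonneg _
        linarith
      rw [div_le_iff₀ (by positivity)]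
      rw [div_lt_iff₀ hδ] at h1
      linarith [mul_comm δ ((j : ℝ) + 1)]
    obtain ⟨M, hM⟩ := eventually_atTop.1
      (((tendsto_rpow_atTop (by positivity : 0 < η / 8)).comp
        (tendsto_natCast_atTop_atTop (R := ℝ))).eventually_ge_atTop (2 ^ β))
    refine ⟨c j / 2, H₀ j, 2 ^ (j + N j + M + 3) + 3, by have := hc j; positivity, ?_⟩
    rintro p ⟨hp, hpall⟩ hp0 X H hX1 hX2 hH hR
    set m := Nat.log 2 (p - 1) with hm
    have hp3 : 3 ≤ p := le_trans (Nat.le_add_left 3 _) hp0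
    have hm1 : 2 ^ m ≤ p - 1 := Nat.pow_log_le_self 2 (by omega)
    have hm2 : p - 1 < 2 ^ (m + 1) := Nat.lt_pow_succ_log_self (by norm_num) _
    have hmge : j + N j + M + 3 ≤ m + 1 := by
      by_contra hcon
      have h1 : 2 ^ (m + 1) ≤ 2 ^ (j + N j + M + 3) := Nat.pow_le_pow_right (by norm_num) (by omega)
      omega
    have hm2m : m < 2 ^ m := Nat.lt_two_pow_self
    have hNj : N j ≤ 2 ^ m := by omega
    have hok := hpall m j (by omega) hNj (by omega) (by omega)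
    set P : ℕ := 2 ^ m with hP
    have hMP : M ≤ P := by omega
    have hP4 : 4 ≤ P := by
      have h1 : 2 ^ 2 ≤ 2 ^ m := Nat.pow_le_pow_right (by norm_num) (by omega)
      simpa [hP] using h1
    have hPp : P ≤ p := by omega
    have hp2P : p ≤ 2 * P := by
      have : 2 ^ (m + 1) = 2 * P := by rw [pow_succ, hP]; ring
      omega
    have hPR : (1 : ℝ) ≤ P := by exact_mod_cast (by omega : 1 ≤ P)
    have hP0 : (0 : ℝ) < P := by linarith
    have hPpR : (P : ℝ) ≤ p := by exact_mod_cast hPp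
    have hp2R : (p : ℝ) ≤ 2 * P := by exact_mod_cast hp2P
    have hcj := hc j
    -- `p ^ (c j / 2) ≤ P ^ c j`
    have hpP : (p : ℝ) ^ (c j / 2) ≤ (P : ℝ) ^ (c j) := by
      have h1 : (p : ℝ) ≤ (P : ℝ) ^ (2 : ℝ) := by
        have : p ≤ P ^ 2 := by nlinarith
        rw [Real.rpow_two]
        exact_mod_cast this
      calc (p : ℝ) ^ (c j / 2) ≤ ((P : ℝ) ^ (2 : ℝ)) ^ (c j / 2) :=
            Real.rpow_le_rpow (by positivity) h1 (by positivity)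
        _ = (P : ℝ) ^ (c j) := by
            rw [← Real.rpow_mul (by positivity)]
            congr 1; ring
    have hMβ : (2 : ℝ) ^ β ≤ (P : ℝ) ^ (η / 8) := hM P hMP
    have hpβ : (p : ℝ) ^ β ≤ (P : ℝ) ^ (β + η / 8) := by
      calc (p : ℝ) ^ β ≤ (2 * P) ^ β := Real.rpow_le_rpow (by positivity) hp2R hβ
        _ = 2 ^ β * (P : ℝ) ^ β := Real.mul_rpow (by norm_num) hP0.le
        _ ≤ (P : ℝ) ^ (η / 8) * (P : ℝ) ^ β := by gcongr
        _ = (P : ℝ) ^ (β + η / 8) := by rw [← Real.rpow_add hP0]; congr 1; ring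
    refine goodQ_mono hjδ (by omega) (hok X H ?_ ?_ hH (hR.trans hpP))
    · refine le_trans ?_ hX1
      calc (P : ℝ) ^ (1 + η / 8) ≤ (P : ℝ) ^ (1 + η) :=
            Real.rpow_le_rpow_of_exponent_le hPR (by linarith)
        _ ≤ (p : ℝ) ^ (1 + η) := Real.rpow_le_rpow hP0.le hPpR (by positivity)
    · exact hX2.trans (Real.exp_le_exp.2 hpβ)

/-- the limit law -/
theorem limitK (β η : ℝ) (hβ : 0 ≤ β) (hη : 0 < η) :
    ∃ 𝒬 : Set ℕ, (∀ q ∈ 𝒬, q.Prime) ∧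
      (∀ᶠ P : ℕ in atTop, ∀ S : Finset ℕ, (∀ q ∈ S, q.Prime ∧ P < q ∧ q ≤ 2 * P ∧ q ∉ 𝒬) →
        (S.card : ℝ) ≤ (P : ℝ) ^ (β + η)) ∧
      ∀ (q : ℕ → ℕ) (χ : ∀ i, DirichletCharacter ℂ (q i)) (u : ℕ → ℂ) (X H : ℕ → ℝ),
        (∀ i, q i ∈ 𝒬) → (∀ i, χ i ≠ 1) → (∀ i, ‖u i‖ = 1) → Tendsto q atTop atTop →
        Tendsto H atTop atTop →
        Tendsto (fun i => Real.log (H i) / Real.log (q i)) atTop (𝓝 0) →
        (∀ᶠ i in atTop, (q i : ℝ) ^ (1 + η) ≤ X i ∧ X i ≤ Real.exp ((q i : ℝ) ^ β)) →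
          (∀ t, Tendsto (fun i => Gd (fy (χ i) (u i)) (X i) (H i) t) atTop
            (𝓝 (cdf (gaussianReal 0 1) t))) ∧
          ∀ k, Tendsto (fun i => Md (fy (χ i) (u i)) k (X i) (H i)) atTop (𝓝 (gm k)) := by
  obtain ⟨𝒬, h1, h2, h3⟩ := diagK β η hβ hη
  refine ⟨𝒬, h1, h2, ?_⟩
  intro q χ u X H hqQ hχ hu hq hH hlog hX
  have hqR : Tendsto (fun i => (q i : ℝ)) atTop atTop := tendsto_natCast_atTop_atTop.comp hq
  have key : ∀ (δ : ℝ) (L : ℕ), 0 < δ → ∀ᶠ i in atTop,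
      (∀ t, |Gd (fy (χ i) (u i)) (X i) (H i) t - cdf (gaussianReal 0 1) t| ≤ δ) ∧
        ∀ k ≤ L, |Md (fy (χ i) (u i)) k (X i) (H i) - gm k| ≤ δ := by
    intro δ L hδ
    obtain ⟨c, H₀, q₀, hc, h⟩ := h3 δ L hδ
    have e1 : ∀ᶠ i in atTop, Real.log (H i) / Real.log (q i) ≤ c :=
      hlog.eventually (eventually_le_nhds hc)
    filter_upwards [e1, hX, hH.eventually_ge_atTop (max H₀ 1), hq.eventually_ge_atTop q₀,
      hqR.eventually_ge_atTop 3] with i g1 g2 g3 g4 g5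
    have hq0 : (0 : ℝ) < q i := by linarith
    have hH1 : 1 ≤ H i := (le_max_right _ _).trans g3
    have hlq : 0 < Real.log (q i) := Real.log_pos (by linarith)
    have hHc : H i ≤ (q i : ℝ) ^ c := by
      rw [div_le_iff₀ hlq] at g1
      rw [← Real.log_le_log_iff (by linarith) (Real.rpow_pos_of_pos hq0 _), Real.log_rpow hq0]
      exact g1
    exact h (q i) (hqQ i) g4 (X i) (H i) g2.1 g2.2 ((le_max_left _ _).trans g3) hHc (χ i) (hχ i)
      (u i) (hu i)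
  refine ⟨fun t => ?_, fun k => ?_⟩
  · rw [Metric.tendsto_atTop]
    intro δ hδ
    obtain ⟨n, hn⟩ := eventually_atTop.1 (key (δ / 2) 0 (by positivity))
    refine ⟨n, fun i hi => ?_⟩
    rw [Real.dist_eq]
    exact lt_of_le_of_lt ((hn i hi).1 t) (by linarith)
  · rw [Metric.tendsto_atTop]
    intro δ hδ
    obtain ⟨n, hn⟩ := eventually_atTop.1 (key (δ / 2) k (by positivity))
    refine ⟨n, fun i hi => ?_⟩
    rw [Real.dist_eq]
    exact lt_of_le_of_lt ((hn i hi).2 k le_rfl) (by linarith)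

end Pool.Agent.P4f18dfY
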