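import Pool.Agent.Lib.P4f18dfY.FinY
import Pool.Agent.Lib.P4f18dfK.WHm

/-!
# The law for all characters modulo almost all primes
-/

set_option autoImplicit false

namespace Pool.Agent.P4f18dfY

open Finset MeasureTheory ProbabilityTheory
open Pool.Agent.P4f18df Pool.Agent.P4f18dfQ Pool.Agent.P4f18dfT Pool.Agent.P4f18dfC

theorem law_y (η δ : ℝ) (L : ℕ) (hη : 0 < η) (hδ : 0 < δ) :
    ∃ c H₀ : ℝ, ∃ P₀ : ℕ, 0 < c ∧ ∀ P : ℕ, P₀ ≤ P →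
      ∃ B : Finset ℕ, (B.card : ℝ) ≤ (P : ℝ) ^ η ∧
        ∀ q : ℕ, q.Prime → P < q → q ≤ 2 * P → q ∉ B →
          ∀ χ : DirichletCharacter ℂ q, χ ≠ 1 → ∀ u : ℂ, ‖u‖ = 1 →
            ∀ X H : ℝ, (P : ℝ) ^ (2 + η) ≤ X → X ≤ Real.exp ((P : ℝ) ^ c) → H₀ ≤ H →
              H ≤ (P : ℝ) ^ c →
                (∀ t, |Gd (fy χ u) X H t - cdf (gaussianReal 0 1) t| ≤ δ) ∧
                  (∀ k ≤ L, |Md (fy χ u) k X H - gm k| ≤ δ) :=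
  main_y (fun m => ⟨m, Nat.cast_nonneg m, P4f18dfK.wh m⟩) η δ L hη hδ

end Pool.Agent.P4f18dfY
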